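import Pool.Agent.Helper70.Sofic.Basic

set_option autoImplicit false

/-!
# Sofic approximations with one exceptional set

Reformulations of soficity with a small exceptional set, and the basic closure properties of
cochains that become trivial along sofic approximations.
-/

namespace Pool.Agent.H96.DC

open Pool.Agent.Helper70.Sofic Equiv Finset

/-- Soficity with one exceptional set. -/
def SApp (G : Type) [Group G] : Prop :=
  ∀ (F : Finset G) (ε : ℝ), 0 < ε → ∃ (X : Type) (_ : Fintype X) (_ : Nonempty X)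
    (σ : G → Perm X) (Bad : Finset X), (Bad.card : ℝ) ≤ ε * Fintype.card X ∧
      ∀ x, x ∉ Bad → (∀ g ∈ F, ∀ h ∈ F, σ (g * h) x = σ g (σ h x)) ∧
        (∀ g ∈ F, g ≠ 1 → σ g x ≠ x)

theorem sapp_of_isSofic {G : Type} [Group G] (hG : IsSofic G) : SApp G := by
  classical
  intro F ε hε
  let F' : Finset G := insert 1 F
  let c : ℝ := (F'.card : ℝ) * F'.card + F'.card
  have hF' : (0 : ℝ) < F'.card := by
    have : 0 < F'.card := Finset.card_pos.2 ⟨1, Finset.mem_insert_self _ _⟩
    exact_mod_cast this
  have hc : 0 < c := by positivity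
  obtain ⟨n, φ, h1, h2⟩ := hG F' (ε / c) (by positivity)
  have hn : 0 < n := by
    by_contra h0
    have h3 := h1 1 (Finset.mem_insert_self _ _) 1 (Finset.mem_insert_self _ _)
    have h4 : n = 0 := by omega
    subst h4
    simp at h3
  let B1 : Finset (Fin n) := (F' ×ˢ F').biUnion (fun p =>
    Finset.univ.filter (fun i => φ (p.1 * p.2) i ≠ (φ p.1 * φ p.2) i))
  let B2 : Finset (Fin n) := (F'.filter (fun g => g ≠ 1)).biUnion (fun g =>
    Finset.univ.filter (fun i => φ g i = i))
  refine ⟨Fin n, inferInstance, ⟨⟨0, hn⟩⟩, φ, B1 ∪ B2, ?_, ?_⟩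
  · have hB1 : (B1.card : ℝ) ≤ (F'.card : ℝ) * F'.card * (ε / c * n) := by
      have h3 : B1.card ≤ ∑ p ∈ F' ×ˢ F',
          (Finset.univ.filter (fun i => φ (p.1 * p.2) i ≠ (φ p.1 * φ p.2) i)).card :=
        Finset.card_biUnion_le
      have h4 : (B1.card : ℝ) ≤ ∑ p ∈ F' ×ˢ F',
          ((Finset.univ.filter (fun i => φ (p.1 * p.2) i ≠ (φ p.1 * φ p.2) i)).card : ℝ) := by
        exact_mod_cast h3
      refine h4.trans ?_
      have h5 : ∑ p ∈ F' ×ˢ F',
          ((Finset.univ.filter (fun i => φ (p.1 * p.2) i ≠ (φ p.1 * φ p.2) i)).card : ℝ) ≤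
          ∑ p ∈ F' ×ˢ F', (ε / c * n) := by
        apply Finset.sum_le_sum
        intro p hp
        rw [Finset.mem_product] at hp
        exact (h1 _ hp.1 _ hp.2).le
      refine h5.trans (le_of_eq ?_)
      rw [Finset.sum_const, Finset.card_product, nsmul_eq_mul]
      push_cast
      ring
    have hB2 : (B2.card : ℝ) ≤ (F'.card : ℝ) * (ε / c * n) := by
      have h3 : B2.card ≤ ∑ g ∈ F'.filter (fun g => g ≠ 1),
          (Finset.univ.filter (fun i => φ g i = i)).card :=
        Finset.card_biUnion_le
      have h4 : (B2.card : ℝ) ≤ ∑ g ∈ F'.filter (fun g => g ≠ 1),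
          ((Finset.univ.filter (fun i => φ g i = i)).card : ℝ) := by
        exact_mod_cast h3
      refine h4.trans ?_
      have h5 : ∑ g ∈ F'.filter (fun g => g ≠ 1),
          ((Finset.univ.filter (fun i => φ g i = i)).card : ℝ) ≤
          ∑ g ∈ F'.filter (fun g => g ≠ 1), (ε / c * n) := by
        apply Finset.sum_le_sum
        intro g hg
        rw [Finset.mem_filter] at hg
        have h6 := h2 g hg.1 hg.2
        have h7 : (Finset.univ.filter (fun i => φ g i = i)).card +
            (Finset.univ.filter (fun i => φ g i ≠ i)).card = n := by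
          have := Finset.card_filter_add_card_filter_not (s := (Finset.univ : Finset (Fin n)))
            (fun i => φ g i = i)
          rw [this, Finset.card_univ, Fintype.card_fin]
        have h8 : ((Finset.univ.filter (fun i => φ g i = i)).card : ℝ) +
            ((Finset.univ.filter (fun i => φ g i ≠ i)).card : ℝ) = n := by
          exact_mod_cast h7
        linarith
      refine h5.trans ?_
      rw [Finset.sum_const, nsmul_eq_mul]
      have h6 : ((F'.filter (fun g => g ≠ 1)).card : ℝ) ≤ F'.card := by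
        exact_mod_cast Finset.card_filter_le _ _
      have h7 : 0 ≤ ε / c * n := by positivity
      exact mul_le_mul_of_nonneg_right h6 h7
    have h3 : ((B1 ∪ B2).card : ℝ) ≤ B1.card + B2.card := by
      exact_mod_cast Finset.card_union_le _ _
    rw [Fintype.card_fin]
    calc ((B1 ∪ B2).card : ℝ) ≤ (F'.card : ℝ) * F'.card * (ε / c * n) +
          (F'.card : ℝ) * (ε / c * n) := by linarith
      _ = c * (ε / c * n) := by ring
      _ = ε * n := by
          field_simp
  · intro x hx
    rw [Finset.mem_union, not_or] at hx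
    constructor
    · intro g hg h hh
      by_contra h3
      apply hx.1
      refine Finset.mem_biUnion.2 ⟨(g, h), ?_, ?_⟩
      · exact Finset.mem_product.2 ⟨Finset.mem_insert_of_mem hg, Finset.mem_insert_of_mem hh⟩
      · simp only [Finset.mem_filter, Finset.mem_univ, true_and]
        exact h3
    · intro g hg hg1 h3
      apply hx.2
      refine Finset.mem_biUnion.2 ⟨g, ?_, ?_⟩
      · exact Finset.mem_filter.2 ⟨Finset.mem_insert_of_mem hg, hg1⟩
      · simp only [Finset.mem_filter, Finset.mem_univ, true_and]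
        exact h3

theorem isSofic_of_sapp {G : Type} [Group G] (hG : SApp G) : IsSofic G := by
  classical
  apply isSofic_of_fintype
  intro F ε hε
  obtain ⟨X, _, _, σ, Bad, hB, h⟩ := hG F (ε / 2) (by positivity)
  refine ⟨X, inferInstance, inferInstance, σ, ?_, ?_⟩
  · intro g hg k hk
    have h1 : (Finset.univ.filter (fun i => σ (g * k) i ≠ (σ g * σ k) i)) ⊆ Bad := by
      intro i hi
      simp only [Finset.mem_filter, Finset.mem_univ, true_and] at hi
      by_contra h2
      exact hi ((h i h2).1 g hg k hk)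
    have h2 : ((Finset.univ.filter (fun i => σ (g * k) i ≠ (σ g * σ k) i)).card : ℝ) ≤
        Bad.card := by exact_mod_cast Finset.card_le_card h1
    have h3 : (0 : ℝ) < Fintype.card X := by exact_mod_cast Fintype.card_pos
    nlinarith
  · intro g hg hg1
    have h1 : (Finset.univ.filter (fun i => σ g i = i)) ⊆ Bad := by
      intro i hi
      simp only [Finset.mem_filter, Finset.mem_univ, true_and] at hi
      by_contra h2
      exact (h i h2).2 g hg hg1 hi
    have h2 : ((Finset.univ.filter (fun i => σ g i = i)).card : ℝ) ≤ Bad.card := by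
      exact_mod_cast Finset.card_le_card h1
    have h7 : (Finset.univ.filter (fun i => σ g i = i)).card +
        (Finset.univ.filter (fun i => σ g i ≠ i)).card = Fintype.card X := by
      have := Finset.card_filter_add_card_filter_not (s := (Finset.univ : Finset X))
        (fun i => σ g i = i)
      rw [this, Finset.card_univ]
    have h8 : ((Finset.univ.filter (fun i => σ g i = i)).card : ℝ) +
        ((Finset.univ.filter (fun i => σ g i ≠ i)).card : ℝ) = Fintype.card X := by
      exact_mod_cast h7
    have h3 : (0 : ℝ) < Fintype.card X := by exact_mod_cast Fintype.card_pos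
    nlinarith

/-- Enlarging an exceptional set by finitely many permutations. -/
theorem exists_closure {X ι : Type} [Fintype X] (S : Finset ι) (π : ι → Perm X)
    (Bad : Finset X) : ∃ Bad' : Finset X, (Bad'.card : ℝ) ≤ (1 + S.card) * Bad.card ∧
      ∀ x, x ∉ Bad' → x ∉ Bad ∧ ∀ i ∈ S, π i x ∉ Bad := by
  classical
  let B2 : Finset X := S.biUnion (fun i => Bad.image (π i).symm)
  refine ⟨Bad ∪ B2, ?_, ?_⟩
  · have h1 : B2.card ≤ S.card * Bad.card := by
      refine Finset.card_biUnion_le_card_mul _ _ _ (fun i _ => ?_)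
      exact Finset.card_image_le
    have h2 : (Bad ∪ B2).card ≤ Bad.card + S.card * Bad.card :=
      (Finset.card_union_le _ _).trans (by omega)
    have h3 : ((Bad ∪ B2).card : ℝ) ≤ Bad.card + S.card * Bad.card := by exact_mod_cast h2
    linarith
  · intro x hx
    rw [Finset.mem_union, not_or] at hx
    refine ⟨hx.1, fun i hi h3 => hx.2 ?_⟩
    exact Finset.mem_biUnion.2 ⟨i, hi, Finset.mem_image.2 ⟨π i x, h3, by simp⟩⟩

/-- The product of two exceptional sets. -/
theorem exists_prod_bad {X Y : Type} [Fintype X] [Fintype Y] (B : Finset X) (C : Finset Y)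
    (a b : ℝ) (hB : (B.card : ℝ) ≤ a * Fintype.card X) (hC : (C.card : ℝ) ≤ b * Fintype.card Y) :
    ∃ D : Finset (X × Y), (D.card : ℝ) ≤ (a + b) * Fintype.card (X × Y) ∧
      ∀ x y, (x, y) ∉ D → x ∉ B ∧ y ∉ C := by
  classical
  refine ⟨(B ×ˢ Finset.univ) ∪ (Finset.univ ×ˢ C), ?_, ?_⟩
  · have h1 : ((B ×ˢ (Finset.univ : Finset Y)) ∪ ((Finset.univ : Finset X) ×ˢ C)).card ≤
        B.card * Fintype.card Y + Fintype.card X * C.card := by
      refine (Finset.card_union_le _ _).trans ?_
      rw [Finset.card_product, Finset.card_product, Finset.card_univ, Finset.card_univ]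
    have h2 : (((B ×ˢ (Finset.univ : Finset Y)) ∪ ((Finset.univ : Finset X) ×ˢ C)).card : ℝ) ≤
        B.card * Fintype.card Y + Fintype.card X * C.card := by exact_mod_cast h1
    refine h2.trans ?_
    rw [Fintype.card_prod]
    push_cast
    have h3 : (0 : ℝ) ≤ Fintype.card X := Nat.cast_nonneg _
    have h4 : (0 : ℝ) ≤ Fintype.card Y := Nat.cast_nonneg _
    nlinarith [mul_le_mul_of_nonneg_right hB h4, mul_le_mul_of_nonneg_left hC h3]
  · intro x y hxy
    simp only [Finset.mem_union, Finset.mem_product, Finset.mem_univ, and_true, true_and,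
      not_or] at hxy
    exact hxy

/-- The cochain `c` becomes trivial along approximate actions of `K`. -/
def Triv (K : Type) [Group K] (c : K → K → ZMod 2) : Prop :=
  ∀ (F : Finset K) (ε : ℝ), 0 < ε → ∃ (X : Type) (_ : Fintype X) (_ : Nonempty X)
    (σ : K → Perm X) (u : K → X → ZMod 2) (Bad : Finset X),
      (Bad.card : ℝ) ≤ ε * Fintype.card X ∧
      ∀ x, x ∉ Bad → ∀ g ∈ F, ∀ h ∈ F, σ (g * h) x = σ g (σ h x) ∧
        u (g * h) x + c g h = u g (σ h x) + u h x

theorem triv_zero (K : Type) [Group K] : Triv K (fun _ _ => 0) := by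
  intro F ε hε
  refine ⟨Unit, inferInstance, inferInstance, fun _ => 1, fun _ _ => 0, ∅, ?_, ?_⟩
  · simp only [Finset.card_empty, Nat.cast_zero]
    positivity
  · intro x _ g _ h _
    simp

theorem triv_add {K : Type} [Group K] {c d : K → K → ZMod 2} (hc : Triv K c) (hd : Triv K d) :
    Triv K (fun g h => c g h + d g h) := by
  classical
  intro F ε hε
  obtain ⟨X, _, _, σ, u, B, hB, h1⟩ := hc F (ε / 2) (by positivity)
  obtain ⟨Y, _, _, τ, v, C, hC, h2⟩ := hd F (ε / 2) (by positivity)
  obtain ⟨D, hD, hD'⟩ := exists_prod_bad B C _ _ hB hC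
  refine ⟨X × Y, inferInstance, inferInstance, fun g => (σ g).prodCongr (τ g),
    fun g p => u g p.1 + v g p.2, D, ?_, ?_⟩
  · have : ε / 2 + ε / 2 = ε := by ring
    rw [this] at hD
    exact hD
  · rintro ⟨x, y⟩ hxy g hg h hh
    obtain ⟨hx, hy⟩ := hD' x y hxy
    obtain ⟨h3, h4⟩ := h1 x hx g hg h hh
    obtain ⟨h5, h6⟩ := h2 y hy g hg h hh
    refine ⟨?_, ?_⟩
    · simp only [Equiv.prodCongr_apply, Prod.map_apply, h3, h5]
    · simp only [Equiv.prodCongr_apply, Prod.map_apply]
      linear_combination h4 + h6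

theorem triv_comp {K L : Type} [Group K] [Group L] (f : K →* L) {c : L → L → ZMod 2}
    (hc : Triv L c) : Triv K (fun g h => c (f g) (f h)) := by
  classical
  intro F ε hε
  obtain ⟨X, _, _, σ, u, B, hB, h1⟩ := hc (F.image f) ε hε
  refine ⟨X, inferInstance, inferInstance, fun g => σ (f g), fun g x => u (f g) x, B, hB, ?_⟩
  intro x hx g hg h hh
  have h2 := h1 x hx (f g) (Finset.mem_image_of_mem f hg) (f h) (Finset.mem_image_of_mem f hh)
  simp only [map_mul]
  exact h2

theorem triv_sum {K ι : Type} [Group K] (S : Finset ι) (c : ι → K → K → ZMod 2)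
    (hc : ∀ i ∈ S, Triv K (c i)) : Triv K (fun g h => ∑ i ∈ S, c i g h) := by
  classical
  induction S using Finset.induction_on with
  | empty => simpa using triv_zero K
  | insert i S hi ih =>
    have h1 := triv_add (hc i (Finset.mem_insert_self _ _))
      (ih (fun j hj => hc j (Finset.mem_insert_of_mem hj)))
    simpa only [Finset.sum_insert hi] using h1

/-- Bimultiplicative cochains become trivial. -/
theorem triv_bimul {K : Type} [Group K] (c : K → K → ZMod 2)
    (hl : ∀ g g' h, c (g * g') h = c g h + c g' h)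
    (hr : ∀ g h h', c g (h * h') = c g h + c g h') : Triv K c := by
  classical
  intro F ε hε
  -- functions on `K` of the form `c · k`, restricted to a finite set
  let F' : Finset K := F ∪ (F ×ˢ F).image (fun p => p.1 * p.2)
  let T : AddSubgroup (F' → ZMod 2) :=
    { carrier := {t | ∃ k : K, ∀ x : F', t x = c x k}
      zero_mem' := ⟨1, fun x => by
        have h1 := hr x 1 1
        rw [mul_one] at h1
        have h2 : c x 1 = 0 := by simpa using h1
        rw [h2]
        rfl⟩
      add_mem' := by
        rintro t t' ⟨k, hk⟩ ⟨k', hk'⟩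
        exact ⟨k * k', fun x => by rw [Pi.add_apply, hk, hk', hr]⟩
      neg_mem' := by
        rintro t ⟨k, hk⟩
        refine ⟨k, fun x => ?_⟩
        rw [Pi.neg_apply, hk, ZMod.neg_eq_self_mod_two] }
  let d : K → T := fun k => ⟨fun x => c x k, ⟨k, fun x => rfl⟩⟩
  have hd : ∀ k k', d (k * k') = d k + d k' := by
    intro k k'
    apply Subtype.ext
    funext x
    exact hr x k k'
  refine ⟨T, Fintype.ofFinite T, inferInstance, fun g => Equiv.addLeft (d g),
    fun g t => if hg : g ∈ F' then t.1 ⟨g, hg⟩ else 0, ∅, ?_, ?_⟩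
  · simp only [Finset.card_empty, Nat.cast_zero]
    positivity
  · intro t _ g hg h hh
    have hg' : g ∈ F' := Finset.mem_union_left _ hg
    have hh' : h ∈ F' := Finset.mem_union_left _ hh
    have hgh : g * h ∈ F' := Finset.mem_union_right _
      (Finset.mem_image.2 ⟨(g, h), Finset.mem_product.2 ⟨hg, hh⟩, rfl⟩)
    constructor
    · simp only [Equiv.coe_addLeft, hd, add_assoc]
    · simp only [dif_pos hg', dif_pos hh', dif_pos hgh, Equiv.coe_addLeft]
      obtain ⟨k, hk⟩ := t.2
      have h1 : ((d h + t : T) : F' → ZMod 2) ⟨g, hg'⟩ = c g h + (t : F' → ZMod 2) ⟨g, hg'⟩ := rfl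
      rw [h1, hk, hk, hk, hl]
      ring

end Pool.Agent.H96.DC
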