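import Pool.Agent.H96.DC.Main

set_option autoImplicit false

/-!
# The groups all of whose double covers are sofic
-/

namespace Pool.Agent.H96.DC

open Pool.Agent.Helper70.Sofic

theorem dbl_of_card {Γ G : Type} [Group Γ] [Group G] {N : Subgroup Γ} [N.Normal]
    (hN : Nat.card N = 2) (e : Γ ⧸ N ≃* G) : ∃ z, Dbl (quoMap e) z := by
  obtain ⟨z, hz, huniq⟩ := (Nat.card_eq_two_iff' (1 : N)).1 hN
  refine ⟨z, ?_, ?_, ?_⟩
  · exact e.surjective.comp (QuotientGroup.mk'_surjective N)
  · intro h
    exact hz (Subtype.ext h)
  · intro γ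
    have h1 : quoMap e γ = 1 ↔ γ ∈ N := by
      change e (QuotientGroup.mk' N γ) = 1 ↔ γ ∈ N
      rw [map_eq_one_iff e e.injective]
      exact QuotientGroup.eq_one_iff γ
    rw [h1]
    constructor
    · intro h
      by_cases h2 : (⟨γ, h⟩ : N) = 1
      · left
        exact congrArg Subtype.val h2
      · right
        exact congrArg Subtype.val (huniq ⟨γ, h⟩ h2)
    · rintro (h | h)
      · rw [h]
        exact N.one_mem
      · rw [h]
        exact z.2

theorem card_ker {Γ G : Type} [Group Γ] [Group G] {p : Γ →* G} {z : Γ} (D : Dbl p z) :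
    Nat.card p.ker = 2 := by
  rw [Nat.card_eq_two_iff' (1 : p.ker)]
  refine ⟨⟨z, D.pz⟩, fun h => D.ne (congrArg Subtype.val h), ?_⟩
  rintro ⟨y, hy⟩ hy1
  rcases (D.ker y).1 hy with h | h
  · exact absurd (Subtype.ext h) hy1
  · exact Subtype.ext h

theorem coversSofic_iff {G : Type} [Group G] :
    CoversSofic G ↔ ∀ (Γ : Type) [Group Γ] (p : Γ →* G) (z : Γ), Dbl p z → IsSofic Γ := by
  constructor
  · intro h Γ _ p z D
    exact h Γ p.ker (card_ker D) ⟨QuotientGroup.quotientKerEquivOfSurjective p D.surj⟩
  · rintro h Γ _ N _ hN ⟨e⟩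
    obtain ⟨z, D⟩ := dbl_of_card hN e
    exact h Γ _ z D

theorem CoversSofic.isSofic_comap {Γ G A : Type} [Group Γ] [Group G] [Group A] {p : Γ →* G}
    {z : Γ} (D : Dbl p z) (hA : CoversSofic A) (i : A →* G) (hi : Function.Injective i) :
    IsSofic (i.range.comap p) := by
  obtain ⟨S, q, z', rfl, -, -, D'⟩ := dbl_comap D i hi
  exact coversSofic_iff.1 hA _ q z' D'

/-! ### Direct products -/

theorem CoversSofic.prod {A B : Type} [Group A] [Group B] (hA : CoversSofic A)
    (hB : CoversSofic B) : CoversSofic (A × B) := by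
  rw [coversSofic_iff]
  intro Γ _ p z D
  exact prod_main D (hA.isSofic_comap D _ fun a b h => by simpa using h)
    (hB.isSofic_comap D _ fun a b h => by simpa using h)

theorem CoversSofic.fst {A B : Type} [Group A] [Group B] (h : CoversSofic (A × B)) :
    CoversSofic A := by
  rw [coversSofic_iff] at h ⊢
  intro Γ _ p z D
  have h1 : Dbl (MonoidHom.prodMap p (MonoidHom.id B)) (z, 1) := by
    refine ⟨?_, ?_, ?_⟩
    · rintro ⟨a, b⟩
      obtain ⟨γ, hγ⟩ := D.surj a
      exact ⟨(γ, b), by simp [hγ]⟩
    · intro h2
      exact D.ne (congrArg Prod.fst h2)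
    · rintro ⟨γ, b⟩
      have h2 : MonoidHom.prodMap p (MonoidHom.id B) (γ, b) = 1 ↔ p γ = 1 ∧ b = 1 := by
        simp [Prod.ext_iff]
      rw [h2, D.ker, Prod.ext_iff, Prod.ext_iff]
      simp only [Prod.fst_one, Prod.snd_one]
      tauto
  exact isSofic_of_injective (MonoidHom.inl Γ B) (fun a b h => by simpa using h) (h _ _ _ h1)

theorem CoversSofic.snd {A B : Type} [Group A] [Group B] (h : CoversSofic (A × B)) :
    CoversSofic B := by
  rw [coversSofic_iff] at h ⊢
  intro Γ _ p z D
  have h1 : Dbl (MonoidHom.prodMap (MonoidHom.id A) p) (1, z) := by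
    refine ⟨?_, ?_, ?_⟩
    · rintro ⟨a, b⟩
      obtain ⟨γ, hγ⟩ := D.surj b
      exact ⟨(a, γ), by simp [hγ]⟩
    · intro h2
      exact D.ne (congrArg Prod.snd h2)
    · rintro ⟨a, γ⟩
      have h2 : MonoidHom.prodMap (MonoidHom.id A) p (a, γ) = 1 ↔ a = 1 ∧ p γ = 1 := by
        simp [Prod.ext_iff]
      rw [h2, D.ker, Prod.ext_iff, Prod.ext_iff]
      simp only [Prod.fst_one, Prod.snd_one]
      tauto
  exact isSofic_of_injective (MonoidHom.inr A Γ) (fun a b h => by simpa using h) (h _ _ _ h1)

/-! ### Restricted wreath products -/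

theorem CoversSofic.wr {A B : Type} [Group A] [Group B] (hA : CoversSofic A)
    (hB : CoversSofic B) : CoversSofic (RWr A B) := by
  classical
  rw [coversSofic_iff]
  intro Γ _ p z D
  exact wr_main D (hA.isSofic_comap D _ (lamp_injective A B))
    (hB.isSofic_comap D _ (base_injective A B))

/-- The projection to the acting group. -/
def rtHom (A B : Type) [Group A] [Group B] : RWr A B →* B :=
  RegularWreathProduct.rightHom.comp (RWr A B).subtype

theorem CoversSofic.wr_base {A B : Type} [Group A] [Group B] (h : CoversSofic (RWr A B)) :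
    CoversSofic B := by
  rw [coversSofic_iff] at h ⊢
  intro Γ _ p z D
  let S : Subgroup (Γ × RWr A B) :=
    (p.comp (MonoidHom.fst Γ (RWr A B))).eqLocus ((rtHom A B).comp (MonoidHom.snd Γ (RWr A B)))
  have hS : ∀ x : Γ × RWr A B, x ∈ S ↔ p x.1 = rtHom A B x.2 := fun x => Iff.rfl
  let q : S →* RWr A B := (MonoidHom.snd Γ (RWr A B)).comp S.subtype
  have hz : ((z, 1) : Γ × RWr A B) ∈ S := by
    rw [hS]
    change p z = rtHom A B 1
    rw [D.pz, map_one]
  have h1 : Dbl q ⟨(z, 1), hz⟩ := by
    refine ⟨?_, ?_, ?_⟩
    · intro x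
      obtain ⟨γ, hγ⟩ := D.surj (rtHom A B x)
      exact ⟨⟨(γ, x), hγ⟩, rfl⟩
    · intro h2
      exact D.ne (congrArg (fun x : S => x.1.1) h2)
    · rintro ⟨⟨γ, x⟩, hx⟩
      constructor
      · intro h2
        have h3 : x = 1 := h2
        subst h3
        have h4 : p γ = 1 := by
          rw [hS] at hx
          change p γ = rtHom A B 1 at hx
          rw [hx, map_one]
        rcases (D.ker γ).1 h4 with h5 | h5
        · left
          subst h5
          rfl
        · right
          subst h5
          rfl
      · rintro (h2 | h2)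
        · exact congrArg (fun x : S => x.1.2) h2
        · exact congrArg (fun x : S => x.1.2) h2
  let j : Γ →* S := ((MonoidHom.id Γ).prod ((base A B).comp p)).codRestrict S fun γ => rfl
  refine isSofic_of_injective j ?_ (h _ q _ h1)
  intro a b hab
  exact congrArg (fun x : S => x.1.1) hab

section
variable {Γ A : Type} [Group Γ] [Group A] {p : Γ →* A} {z : Γ}

/-- the exponent of an element of the kernel -/
noncomputable def ex (γ : Γ) : ZMod 2 := dif γ 1

theorem ex_one : ex (1 : Γ) = 0 := if_pos rfl

theorem ex_eq_zero {γ : Γ} (h : ex γ = 0) : γ = 1 := by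
  by_contra h1
  rw [ex, dif, if_neg h1] at h
  exact one_ne_zero h

theorem ex_z (D : Dbl p z) : ex z = 1 := if_neg D.ne

theorem ex_mul (D : Dbl p z) {γ γ' : Γ} (h : p γ = 1) (h' : p γ' = 1) :
    ex (γ * γ') = ex γ + ex γ' := by
  rcases (D.ker γ).1 h with rfl | rfl
  · rw [one_mul, ex_one, zero_add]
  · rcases (D.ker γ').1 h' with rfl | rfl
    · rw [mul_one, ex_one, add_zero]
    · rw [D.zz, ex_one, ex_z D]
      decide

theorem ex_inv (D : Dbl p z) {γ : Γ} (h : p γ = 1) : ex γ⁻¹ = ex γ := by
  rcases (D.ker γ).1 h with rfl | rfl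
  · rw [inv_one]
  · rw [inv_eq_of_mul_eq_one_left D.zz]

/-- the product of the lamps, for configurations in the kernel -/
noncomputable def tot {B : Type} [Group B] (x : RWr Γ B) : ZMod 2 :=
  ∑ᶠ b, ex ((x : RegularWreathProduct Γ B).left b)

theorem ex_support {B : Type} [Group B] (x : RWr Γ B) :
    (Function.support fun b => ex ((x : RegularWreathProduct Γ B).left b)).Finite := by
  refine Set.Finite.subset x.2 ?_
  intro b hb h
  apply hb
  change ex ((x : RegularWreathProduct Γ B).left b) = 0
  rw [h, ex_one]

/-- the kernel of the product of the lamps -/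
noncomputable def KM {B : Type} [Group B] (D : Dbl p z) : Subgroup (RWr Γ B) where
  carrier := {x | (x : RegularWreathProduct Γ B).right = 1 ∧
    (∀ b, p ((x : RegularWreathProduct Γ B).left b) = 1) ∧ tot x = 0}
  one_mem' := by
    refine ⟨rfl, fun b => map_one p, ?_⟩
    have h1 : ∀ b, ex (((1 : RWr Γ B) : RegularWreathProduct Γ B).left b) = 0 := fun b => ex_one
    unfold tot
    simp only [h1]
    exact finsum_zero
  mul_mem' := by
    rintro x y ⟨hx1, hx2, hx3⟩ ⟨hy1, hy2, hy3⟩
    have h1 : ∀ b, ((x * y : RWr Γ B) : RegularWreathProduct Γ B).left b =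
        (x : RegularWreathProduct Γ B).left b * (y : RegularWreathProduct Γ B).left b := by
      intro b
      change (x : RegularWreathProduct Γ B).left b * (y : RegularWreathProduct Γ B).left
        ((x : RegularWreathProduct Γ B).right⁻¹ * b) = _
      rw [hx1, inv_one, one_mul]
    refine ⟨?_, ?_, ?_⟩
    · change (x : RegularWreathProduct Γ B).right * (y : RegularWreathProduct Γ B).right = 1
      rw [hx1, hy1, mul_one]
    · intro b
      rw [h1, map_mul, hx2, hy2, mul_one]
    · unfold tot
      have h2 : ∀ b, ex (((x * y : RWr Γ B) : RegularWreathProduct Γ B).left b) =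
          ex ((x : RegularWreathProduct Γ B).left b) +
            ex ((y : RegularWreathProduct Γ B).left b) := fun b => by
        rw [h1, ex_mul D (hx2 b) (hy2 b)]
      simp only [h2]
      rw [finsum_add_distrib (ex_support x) (ex_support y)]
      unfold tot at hx3 hy3
      rw [hx3, hy3, add_zero]
  inv_mem' := by
    rintro x ⟨hx1, hx2, hx3⟩
    have h1 : ∀ b, ((x⁻¹ : RWr Γ B) : RegularWreathProduct Γ B).left b =
        ((x : RegularWreathProduct Γ B).left b)⁻¹ := by
      intro b
      change ((x : RegularWreathProduct Γ B).left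
        ((x : RegularWreathProduct Γ B).right * b))⁻¹ = _
      rw [hx1, one_mul]
    refine ⟨?_, ?_, ?_⟩
    · change (x : RegularWreathProduct Γ B).right⁻¹ = 1
      rw [hx1, inv_one]
    · intro b
      rw [h1, map_inv, hx2, inv_one]
    · unfold tot
      have h2 : ∀ b, ex (((x⁻¹ : RWr Γ B) : RegularWreathProduct Γ B).left b) =
          ex ((x : RegularWreathProduct Γ B).left b) := fun b => by
        rw [h1, ex_inv D (hx2 b)]
      simp only [h2]
      exact hx3

theorem KM_normal {B : Type} [Group B] (D : Dbl p z) : (KM (B := B) D).Normal := by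
  constructor
  rintro x ⟨hx1, hx2, hx3⟩ g
  have h1 : ∀ b, ((g * x * g⁻¹ : RWr Γ B) : RegularWreathProduct Γ B).left b =
      (x : RegularWreathProduct Γ B).left ((g : RegularWreathProduct Γ B).right⁻¹ * b) := by
    intro b
    change (g : RegularWreathProduct Γ B).left b * (x : RegularWreathProduct Γ B).left
      ((g : RegularWreathProduct Γ B).right⁻¹ * b) *
      ((g : RegularWreathProduct Γ B).left ((g : RegularWreathProduct Γ B).right *
        (((g : RegularWreathProduct Γ B).right * (x : RegularWreathProduct Γ B).right)⁻¹ * b)))⁻¹ = _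
    rw [hx1, mul_one, mul_inv_cancel_left]
    rcases (D.ker _).1 (hx2 ((g : RegularWreathProduct Γ B).right⁻¹ * b)) with h2 | h2
    · rw [h2, mul_one, mul_inv_cancel]
    · rw [h2, ← D.comm, mul_assoc, mul_inv_cancel, mul_one]
  refine ⟨?_, ?_, ?_⟩
  · change (g : RegularWreathProduct Γ B).right * (x : RegularWreathProduct Γ B).right *
      (g : RegularWreathProduct Γ B).right⁻¹ = 1
    rw [hx1, mul_one, mul_inv_cancel]
  · intro b
    rw [h1, hx2]
  · unfold tot at hx3 ⊢
    simp only [h1]
    rw [← hx3]
    exact finsum_comp_equiv (Equiv.mulLeft (g : RegularWreathProduct Γ B).right⁻¹)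
      (f := fun b => ex ((x : RegularWreathProduct Γ B).left b))

/-- the map of wreath products given by a map of the lamp groups -/
def mapW {Γ A : Type} [Group Γ] [Group A] (p : Γ →* A) (B : Type) [Group B] :
    RWr Γ B →* RWr A B where
  toFun x := ⟨⟨fun b => p ((x : RegularWreathProduct Γ B).left b),
    (x : RegularWreathProduct Γ B).right⟩, by
      refine Set.Finite.subset x.2 ?_
      intro b hb h
      apply hb
      change p ((x : RegularWreathProduct Γ B).left b) = 1
      rw [h, map_one]⟩
  map_one' := by
    apply Subtype.ext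
    ext1
    · funext b
      exact map_one p
    · rfl
  map_mul' x y := by
    apply Subtype.ext
    ext1
    · funext b
      exact map_mul p _ _
    · rfl

end

theorem CoversSofic.wr_lamp {A B : Type} [Group A] [Group B] (h : CoversSofic (RWr A B)) :
    CoversSofic A := by
  classical
  rw [coversSofic_iff] at h ⊢
  intro Γ _ p z D
  have hn : (KM (B := B) D).Normal := KM_normal D
  have hle : KM (B := B) D ≤ (mapW p B).ker := by
    rintro x ⟨hx1, hx2, -⟩
    rw [MonoidHom.mem_ker]
    apply Subtype.ext
    ext1
    · funext b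
      exact hx2 b
    · exact hx1
  let q : RWr Γ B ⧸ KM (B := B) D →* RWr A B := QuotientGroup.lift _ (mapW p B) hle
  have htot : ∀ γ : Γ, tot (lamp Γ B γ) = ex γ := by
    intro γ
    unfold tot
    rw [finsum_eq_single _ (1 : B)]
    · change ex (if (1 : B) = 1 then γ else 1) = ex γ
      rw [if_pos rfl]
    · intro b hb
      change ex (if b = 1 then γ else 1) = 0
      rw [if_neg hb, ex_one]
  have hlamp : ∀ γ : Γ, lamp Γ B γ ∈ KM (B := B) D → γ = 1 := by
    rintro γ ⟨-, -, h3⟩
    rw [htot] at h3
    exact ex_eq_zero h3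
  have hD : Dbl q (QuotientGroup.mk' (KM (B := B) D) (lamp Γ B z)) := by
    refine ⟨?_, ?_, ?_⟩
    · intro y
      obtain ⟨s, hs, hs1⟩ := exists_section D
      refine ⟨QuotientGroup.mk' (KM (B := B) D) ⟨⟨fun b => s ((y : RegularWreathProduct A B).left b),
        (y : RegularWreathProduct A B).right⟩, ?_⟩, ?_⟩
      · refine Set.Finite.subset y.2 ?_
        intro b hb h1
        apply hb
        change s ((y : RegularWreathProduct A B).left b) = 1
        rw [h1, hs1]
      · apply Subtype.ext
        ext1
        · funext b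
          exact hs _
        · rfl
    · intro h1
      exact D.ne (hlamp z ((QuotientGroup.eq_one_iff _).1 h1))
    · intro y
      obtain ⟨x, rfl⟩ := QuotientGroup.mk'_surjective (KM (B := B) D) y
      constructor
      · intro h1
        have h2 : mapW p B x = 1 := h1
        have hx1 : (x : RegularWreathProduct Γ B).right = 1 :=
          congrArg (fun y : RWr A B => (y : RegularWreathProduct A B).right) h2
        have hx2 : ∀ b, p ((x : RegularWreathProduct Γ B).left b) = 1 := fun b =>
          congrArg (fun y : RWr A B => (y : RegularWreathProduct A B).left b) h2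
        rcases zmod2_cases (tot x) with h3 | h3
        · left
          exact (QuotientGroup.eq_one_iff x).2 ⟨hx1, hx2, h3⟩
        · right
          apply QuotientGroup.eq.2
          have hlz : ∀ b, p (((lamp Γ B z : RWr Γ B) : RegularWreathProduct Γ B).left b) = 1 := by
            intro b
            change p (if b = 1 then z else 1) = 1
            split_ifs
            · exact D.pz
            · exact map_one p
          have h4 : ∀ b, ((x⁻¹ * lamp Γ B z : RWr Γ B) : RegularWreathProduct Γ B).left b =
              ((x : RegularWreathProduct Γ B).left b)⁻¹ *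
                ((lamp Γ B z : RWr Γ B) : RegularWreathProduct Γ B).left b := by
            intro b
            change ((x : RegularWreathProduct Γ B).left
              ((x : RegularWreathProduct Γ B).right * b))⁻¹ *
              ((lamp Γ B z : RWr Γ B) : RegularWreathProduct Γ B).left
                (((x : RegularWreathProduct Γ B).right⁻¹)⁻¹ * b) = _
            rw [hx1, inv_one, inv_one, one_mul]
          refine ⟨?_, ?_, ?_⟩
          · change (x : RegularWreathProduct Γ B).right⁻¹ * 1 = 1
            rw [hx1, inv_one, mul_one]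
          · intro b
            rw [h4, map_mul, map_inv, hx2, hlz, inv_one, mul_one]
          · unfold tot
            have h5 : ∀ b, ex (((x⁻¹ * lamp Γ B z : RWr Γ B) : RegularWreathProduct Γ B).left b) =
                ex ((x : RegularWreathProduct Γ B).left b) +
                  ex (((lamp Γ B z : RWr Γ B) : RegularWreathProduct Γ B).left b) := by
              intro b
              rw [h4, ex_mul D (by rw [map_inv, hx2, inv_one]) (hlz b), ex_inv D (hx2 b)]
            simp only [h5]
            rw [finsum_add_distrib (ex_support x) (ex_support _)]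
            have h6 : tot x + tot (lamp Γ B z) = 0 := by
              rw [h3, htot, ex_z D]
              decide
            exact h6
      · rintro (h1 | h1)
        · rw [h1, map_one]
        · rw [h1]
          change mapW p B (lamp Γ B z) = 1
          apply Subtype.ext
          ext1
          · funext b
            change p (if b = 1 then z else 1) = 1
            split_ifs
            · exact D.pz
            · exact map_one p
          · rfl
  refine isSofic_of_injective ((QuotientGroup.mk' (KM (B := B) D)).comp (lamp Γ B)) ?_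
    (h _ q _ hD)
  rw [injective_iff_map_eq_one]
  intro γ hγ
  exact hlamp γ ((QuotientGroup.eq_one_iff _).1 hγ)

end Pool.Agent.H96.DC
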