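import Pool.Agent.H96.DC.Dbl

set_option autoImplicit false

/-!
# Combining approximations
-/

namespace Pool.Agent.H96.DC

open Pool.Agent.Helper70.Sofic Equiv Finset

theorem striv_of {K : Type} [Group K] {c : K → K → ZMod 2} (hK : IsSofic K) (hc : Triv K c)
    (F : Finset K) (ε : ℝ) (hε : 0 < ε) :
    ∃ (X : Type) (_ : Fintype X) (_ : Nonempty X)
    (σ : K → Perm X) (u : K → X → ZMod 2) (Bad : Finset X),
      (Bad.card : ℝ) ≤ ε * Fintype.card X ∧
      ∀ x, x ∉ Bad → (∀ g ∈ F, ∀ h ∈ F, σ (g * h) x = σ g (σ h x) ∧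
        u (g * h) x + c g h = u g (σ h x) + u h x) ∧ ∀ g ∈ F, g ≠ 1 → σ g x ≠ x := by
  classical
  obtain ⟨X, _, _, σ, B, hB, h1⟩ := sapp_of_isSofic hK F (ε / 2) (by positivity)
  obtain ⟨Y, _, _, τ, v, C, hC, h2⟩ := hc F (ε / 2) (by positivity)
  obtain ⟨D, hD, hD'⟩ := exists_prod_bad B C _ _ hB hC
  refine ⟨X × Y, inferInstance, inferInstance, fun g => (σ g).prodCongr (τ g),
    fun g p => v g p.2, D, ?_, ?_⟩
  · have : ε / 2 + ε / 2 = ε := by ring
    rw [this] at hD
    exact hD
  · rintro ⟨x, y⟩ hxy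
    obtain ⟨hx, hy⟩ := hD' x y hxy
    constructor
    · intro g hg h hh
      have h3 := (h1 x hx).1 g hg h hh
      obtain ⟨h5, h6⟩ := h2 y hy g hg h hh
      refine ⟨?_, ?_⟩
      · simp only [Equiv.prodCongr_apply, Prod.map_apply, h3, h5]
      · simp only [Equiv.prodCongr_apply, Prod.map_apply]
        exact h6
    · intro g hg hg1 h3
      simp only [Equiv.prodCongr_apply, Prod.map_apply, Prod.mk.injEq] at h3
      exact (h1 x hx).2 g hg hg1 h3.1

/-- Soficity from approximate maps to twisted wreath products over finite sets. -/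
theorem comb {Γ : Type} [Group Γ] (H : ∀ (F : Finset Γ) (ε : ℝ), 0 < ε →
    ∃ (V K : Type) (_ : Fintype V) (_ : Nonempty V) (_ : Group K) (c : K → K → ZMod 2)
      (σ : Γ → Perm V) (k : Γ → V → K) (t : Γ → V → ZMod 2) (Bad : Finset V),
      IsSofic K ∧ Triv K c ∧ c 1 1 = 0 ∧ (Bad.card : ℝ) ≤ ε * Fintype.card V ∧
      ∀ v, v ∉ Bad → (∀ g ∈ F, ∀ h ∈ F, σ (g * h) v = σ g (σ h v) ∧
        k (g * h) v = k g (σ h v) * k h v ∧
        t (g * h) v = t g (σ h v) + t h v + c (k g (σ h v)) (k h v)) ∧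
        ∀ g ∈ F, g ≠ 1 → σ g v ≠ v ∨ k g v ≠ 1 ∨ t g v ≠ 0) : IsSofic Γ := by
  classical
  apply isSofic_of_sapp
  intro F ε hε
  obtain ⟨V, K, _, _, _, c, σ, k, t, BV, hK, hc, hc1, hBV, hV⟩ := H F (ε / 2) (by positivity)
  let FK : Finset K := insert 1 ((F ×ˢ (Finset.univ : Finset V)).image (fun q => k q.1 q.2))
  obtain ⟨Y, _, _, ρ, u, BY, hBY, hY⟩ := striv_of hK hc FK (ε / 2) (by positivity)
  obtain ⟨D, hD, hD'⟩ := exists_prod_bad BV BY _ _ hBV hBY
  have hkF : ∀ g ∈ F, ∀ v, k g v ∈ FK := fun g hg v =>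
    Finset.mem_insert_of_mem (Finset.mem_image.2 ⟨(g, v), by simp [hg], rfl⟩)
  let φ : Γ → Perm ((V × Y) × ZMod 2) := fun g =>
    Equiv.prodShear (Equiv.prodShear (σ g) (fun v => ρ (k g v)))
      (fun q => Equiv.addRight (t g q.1 + u (k g q.1) q.2))
  have hφ : ∀ g v y a, φ g ((v, y), a) =
      ((σ g v, ρ (k g v) y), a + (t g v + u (k g v) y)) := fun g v y a => rfl
  refine ⟨(V × Y) × ZMod 2, inferInstance, inferInstance, φ, D ×ˢ Finset.univ, ?_, ?_⟩
  · rw [Finset.card_product, Fintype.card_prod (V × Y), Finset.card_univ]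
    push_cast
    have h1 : ε / 2 + ε / 2 = ε := by ring
    rw [h1] at hD
    have h2 : (0 : ℝ) ≤ Fintype.card (ZMod 2) := Nat.cast_nonneg _
    have := mul_le_mul_of_nonneg_right hD h2
    linarith
  · rintro ⟨⟨v, y⟩, a⟩ hx
    have hvy : (v, y) ∉ D := fun h => hx (Finset.mem_product.2 ⟨h, Finset.mem_univ _⟩)
    obtain ⟨hv, hy⟩ := hD' v y hvy
    constructor
    · intro g hg h hh
      obtain ⟨h1, h2, h3⟩ := (hV v hv).1 g hg h hh
      obtain ⟨h4, h5⟩ := (hY y hy).1 (k g (σ h v)) (hkF g hg _) (k h v) (hkF h hh _)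
      rw [hφ, hφ, hφ, h1, h2, h4, h3]
      ext1
      · rfl
      · simp only
        linear_combination h5
    · intro g hg hg1 h1
      rw [hφ] at h1
      simp only [Prod.mk.injEq] at h1
      obtain ⟨⟨h2, h3⟩, h4⟩ := h1
      rcases (hV v hv).2 g hg hg1 with h5 | h5 | h5
      · exact h5 h2
      · exact (hY y hy).2 _ (hkF g hg v) h5 h3
      · by_cases h6 : k g v = 1
        · have h7 := (hY y hy).1 1 (Finset.mem_insert_self _ _) 1 (Finset.mem_insert_self _ _)
          rw [mul_one, hc1] at h7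
          have h8 : ρ 1 y = y := ((ρ 1).injective h7.1).symm
          have h9 := h7.2
          rw [h8] at h9
          have h10 : u 1 y = 0 := by
            have h11 : u 1 y + u 1 y = 0 := CharTwo.add_self_eq_zero _
            linear_combination h9 + h11
          rw [h6, h10, add_zero] at h4
          exact h5 (by simpa using h4)
        · exact (hY y hy).2 _ (hkF g hg v) h6 h3

/-- An extension with kernel of order two is sofic as soon as the quotient is sofic and the
extension cochain becomes trivial. -/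
theorem isSofic_of_triv {Γ G : Type} [Group Γ] [Group G] {p : Γ →* G} {z : Γ} (D : Dbl p z)
    {s : G → Γ} (hs : ∀ g, p (s g) = g) (hs1 : s 1 = 1) (hG : IsSofic G)
    (hc : Triv G (coch s)) : IsSofic Γ := by
  classical
  apply comb
  intro F ε hε
  have hc1 : coch s 1 1 = (0 : ZMod 2) := by
    rw [coch, dif, if_pos]
    rw [mul_one, hs1, mul_one]
  have hspec : ∀ γ, γ = zp z (dif γ (s (p γ))) * s (p γ) := fun γ =>
    D.dif_spec (by rw [hs])
  refine ⟨Unit, G, inferInstance, inferInstance, inferInstance, coch s, fun _ => 1,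
    fun γ _ => p γ, fun γ _ => dif γ (s (p γ)), ∅, hG, hc, hc1, ?_, ?_⟩
  · simp only [Finset.card_empty, Nat.cast_zero]
    positivity
  · intro v _
    constructor
    · intro g _ h _
      refine ⟨rfl, map_mul p g h, ?_⟩
      change dif (g * h) (s (p (g * h))) =
        dif g (s (p g)) + dif h (s (p h)) + coch s (p g) (p h)
      apply D.dif_unique
      have h1 := hspec g
      have h2 := hspec h
      calc g * h = (zp z (dif g (s (p g))) * s (p g)) * (zp z (dif h (s (p h))) * s (p h)) := by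
            rw [← h1, ← h2]
        _ = zp z (dif g (s (p g))) * zp z (dif h (s (p h))) * (s (p g) * s (p h)) := by
            rw [mul_assoc, mul_assoc, ← mul_assoc (s (p g)), ← D.zp_comm, mul_assoc]
        _ = _ := by
            rw [coch_spec D hs, ← mul_assoc, ← D.zp_add, ← D.zp_add, map_mul p g h]
    · intro g _ hg1
      by_cases h1 : p g = 1
      · right; right
        rcases (D.ker g).1 h1 with h2 | h2
        · exact absurd h2 hg1
        · change dif g (s (p g)) ≠ 0
          rw [h1, hs1, dif, if_neg hg1]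
          decide
      · right; left
        exact h1

end Pool.Agent.H96.DC
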