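import Pool.Agent.H96.DC.Basic

set_option autoImplicit false

/-!
# Extensions with a kernel of order two

If the total group is sofic then the extension cochain becomes trivial along sofic
approximations of the quotient.
-/

namespace Pool.Agent.H96.DC

open Pool.Agent.Helper70.Sofic Equiv Finset

/-- `p` is onto and its kernel is `{1, z}`, with `z ≠ 1`. -/
structure Dbl {Γ G : Type} [Group Γ] [Group G] (p : Γ →* G) (z : Γ) : Prop where
  surj : Function.Surjective p
  ne : z ≠ 1
  ker : ∀ γ, p γ = 1 ↔ γ = 1 ∨ γ = z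

/-- powers of `z` -/
def zp {Γ : Type} [Group Γ] (z : Γ) (a : ZMod 2) : Γ := if a = 0 then 1 else z

open Classical in
/-- the exponent by which two elements with the same image differ -/
noncomputable def dif {Γ : Type} (γ γ' : Γ) : ZMod 2 := if γ = γ' then 0 else 1

theorem zmod2_cases (a : ZMod 2) : a = 0 ∨ a = 1 := by
  revert a; decide

namespace Dbl

variable {Γ G : Type} [Group Γ] [Group G] {p : Γ →* G} {z : Γ} (D : Dbl p z)

include D

theorem pz : p z = 1 := (D.ker z).2 (Or.inr rfl)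

theorem zz : z * z = 1 := by
  have h1 : p (z * z) = 1 := by rw [map_mul, D.pz, mul_one]
  rcases (D.ker _).1 h1 with h2 | h2
  · exact h2
  · exact absurd (by simpa using h2) D.ne

theorem comm (γ : Γ) : z * γ = γ * z := by
  have h1 : p (γ * z * γ⁻¹) = 1 := by rw [map_mul, map_mul, D.pz, mul_one, map_inv, mul_inv_cancel]
  rcases (D.ker _).1 h1 with h2 | h2
  · exfalso
    apply D.ne
    have h3 : γ * z = γ := by
      have := congrArg (· * γ) h2
      simpa using this
    simpa using h3
  · have h3 := congrArg (· * γ) h2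
    simp only [inv_mul_cancel_right] at h3
    exact h3.symm

theorem zp_zero : zp z 0 = 1 := by simp [zp]

theorem zp_one : zp z 1 = z := by simp [zp]

theorem zp_add (a b : ZMod 2) : zp z (a + b) = zp z a * zp z b := by
  rcases zmod2_cases a with rfl | rfl <;> rcases zmod2_cases b with rfl | rfl
  · simp [zp]
  · simp [zp]
  · simp [zp]
  · have : (1 : ZMod 2) + 1 = 0 := by decide
    rw [this, D.zp_zero, D.zp_one, D.zz]

theorem zp_comm (a : ZMod 2) (γ : Γ) : zp z a * γ = γ * zp z a := by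
  rcases zmod2_cases a with rfl | rfl
  · simp [D.zp_zero]
  · rw [D.zp_one, D.comm]

theorem p_zp (a : ZMod 2) : p (zp z a) = 1 := by
  rcases zmod2_cases a with rfl | rfl
  · rw [D.zp_zero, map_one]
  · rw [D.zp_one, D.pz]

theorem zp_inj {a b : ZMod 2} (h : zp z a = zp z b) : a = b := by
  rcases zmod2_cases a with rfl | rfl <;> rcases zmod2_cases b with rfl | rfl
  · rfl
  · rw [D.zp_zero, D.zp_one] at h
    exact absurd h.symm D.ne
  · rw [D.zp_zero, D.zp_one] at h
    exact absurd h D.ne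
  · rfl

theorem dif_spec {γ γ' : Γ} (h : p γ = p γ') : γ = zp z (dif γ γ') * γ' := by
  have h1 : p (γ * γ'⁻¹) = 1 := by rw [map_mul, map_inv, h, mul_inv_cancel]
  rcases (D.ker _).1 h1 with h2 | h2
  · have h3 : γ = γ' := mul_inv_eq_one.1 h2
    rw [dif, if_pos h3, D.zp_zero, one_mul, h3]
  · have h3 : γ ≠ γ' := by
      rintro rfl
      rw [mul_inv_cancel] at h2
      exact D.ne h2.symm
    rw [dif, if_neg h3, D.zp_one, ← h2]
    simp

theorem dif_unique {γ γ' : Γ} {a : ZMod 2} (h : γ = zp z a * γ') : dif γ γ' = a := by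
  have h1 : p γ = p γ' := by rw [h, map_mul, D.p_zp, one_mul]
  have h2 := D.dif_spec h1
  have h3 : zp z (dif γ γ') * γ' = zp z a * γ' := by rw [← h2, ← h]
  exact D.zp_inj (mul_right_cancel h3)

end Dbl

/-- the extension cochain of a section -/
noncomputable def coch {Γ G : Type} [Group Γ] [Group G] (s : G → Γ) (g h : G) : ZMod 2 :=
  dif (s g * s h) (s (g * h))

theorem coch_spec {Γ G : Type} [Group Γ] [Group G] {p : Γ →* G} {z : Γ} (D : Dbl p z)
    {s : G → Γ} (hs : ∀ g, p (s g) = g) (g h : G) :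
    s g * s h = zp z (coch s g h) * s (g * h) := by
  apply D.dif_spec
  rw [map_mul, hs, hs, hs]

/-- Soficity of the total group gives approximations of the quotient along which the extension
cochain becomes trivial. -/
theorem striv_of_isSofic {Γ G : Type} [Group Γ] [Group G] {p : Γ →* G} {z : Γ} (D : Dbl p z)
    {s : G → Γ} (hs : ∀ g, p (s g) = g) (hΓ : IsSofic Γ) (F : Finset G) (ε : ℝ) (hε : 0 < ε) :
    ∃ (X : Type) (_ : Fintype X) (_ : Nonempty X)
    (σ : G → Perm X) (u : G → X → ZMod 2) (Bad : Finset X),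
      (Bad.card : ℝ) ≤ ε * Fintype.card X ∧
      ∀ x, x ∉ Bad → (∀ g ∈ F, ∀ h ∈ F, σ (g * h) x = σ g (σ h x) ∧
        u (g * h) x + coch s g h = u g (σ h x) + u h x) ∧ ∀ g ∈ F, g ≠ 1 → σ g x ≠ x := by
  classical
  let S0 : Finset G := F ∪ (F ×ˢ F).image (fun q => q.1 * q.2)
  let P : Finset Γ := {1, z} ∪ (S0.image s ∪ S0.image (fun g => z * s g))
  have hP1 : (1 : Γ) ∈ P := by simp [P]
  have hPz : z ∈ P := by simp [P]
  have hPzp : ∀ a : ZMod 2, zp z a ∈ P := by
    intro a
    rcases zmod2_cases a with rfl | rfl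
    · rw [D.zp_zero]; exact hP1
    · rw [D.zp_one]; exact hPz
  have hPs : ∀ g ∈ S0, s g ∈ P := fun g hg =>
    Finset.mem_union_right _ (Finset.mem_union_left _ (Finset.mem_image_of_mem _ hg))
  have hPzs : ∀ (a : ZMod 2), ∀ g ∈ S0, zp z a * s g ∈ P := by
    intro a g hg
    rcases zmod2_cases a with rfl | rfl
    · rw [D.zp_zero, one_mul]; exact hPs g hg
    · rw [D.zp_one]
      exact Finset.mem_union_right _ (Finset.mem_union_right _ (Finset.mem_image.2 ⟨g, hg, rfl⟩))
  let K : ℝ := (1 + 1) * (1 + P.card)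
  have hK : 0 < K := by positivity
  obtain ⟨W, _, _, ψ, Bad0, hB0, hg0⟩ := sapp_of_isSofic hΓ P (min (1 / 2) (ε / (4 * K)))
    (by positivity)
  obtain ⟨Bad1, hB1, hg1⟩ := exists_closure P ψ Bad0
  obtain ⟨Bad2, hB2, hg2⟩ := exists_closure ({()} : Finset Unit) (fun _ => ψ z) Bad1
  -- basic facts at good points
  have hmul : ∀ x, x ∉ Bad0 → ∀ g ∈ P, ∀ h ∈ P, ψ (g * h) x = ψ g (ψ h x) :=
    fun x hx => (hg0 x hx).1
  have hfree : ∀ x, x ∉ Bad0 → ∀ g ∈ P, g ≠ 1 → ψ g x ≠ x := fun x hx => (hg0 x hx).2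
  have hone : ∀ x, x ∉ Bad0 → ψ 1 x = x := by
    intro x hx
    have h1 := hmul x hx 1 hP1 1 hP1
    rw [mul_one] at h1
    exact ((ψ 1).injective h1).symm
  let τ : Perm W := ψ z
  let tp : ZMod 2 → W → W := fun a w => if a = 0 then w else τ w
  have htp0 : ∀ w, tp 0 w = w := fun w => by simp [tp]
  have htp1 : ∀ w, tp 1 w = τ w := fun w => by simp [tp]
  let W0 : W → Prop := fun w => τ (τ w) = w ∧ τ w ≠ w
  have hW0 : ∀ x, x ∉ Bad0 → W0 x := by
    intro x hx
    refine ⟨?_, hfree x hx z hPz D.ne⟩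
    have h1 := hmul x hx z hPz z hPz
    rw [D.zz, hone x hx] at h1
    exact h1.symm
  have hW0τ : ∀ x, W0 x → W0 (τ x) := by
    intro x hx
    exact ⟨by rw [hx.1], by rw [hx.1]; exact fun h => hx.2 h.symm⟩
  have htpadd : ∀ x, W0 x → ∀ a b, tp a (tp b x) = tp (a + b) x := by
    intro x hx a b
    rcases zmod2_cases a with rfl | rfl <;> rcases zmod2_cases b with rfl | rfl
    · simp [htp0]
    · simp [htp0]
    · simp [htp0]
    · have : (1 : ZMod 2) + 1 = 0 := by decide
      rw [this, htp0, htp1, htp1, hx.1]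
  have hW0tp : ∀ x, W0 x → ∀ a, W0 (tp a x) := by
    intro x hx a
    rcases zmod2_cases a with rfl | rfl
    · rw [htp0]; exact hx
    · rw [htp1]; exact hW0τ x hx
  have htpz : ∀ x, x ∉ Bad0 → ∀ a, ψ (zp z a) x = tp a x := by
    intro x hx a
    rcases zmod2_cases a with rfl | rfl
    · rw [D.zp_zero, htp0, hone x hx]
    · rw [D.zp_one, htp1]
  -- representatives
  let e := Fintype.equivFin W
  let isV : W → Prop := fun w => W0 w ∧ e w < e (τ w)
  have hisV : ∀ w, W0 w → ¬ isV w → isV (τ w) := by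
    intro w hw h
    refine ⟨hW0τ w hw, ?_⟩
    rw [hw.1]
    have h1 : ¬ e w < e (τ w) := fun h2 => h ⟨hw, h2⟩
    rcases lt_or_eq_of_le (not_lt.1 h1) with h2 | h2
    · exact h2
    · exact absurd (e.injective h2) hw.2
  have hisV2 : ∀ w, isV w → ¬ isV (τ w) := by
    intro w hw h
    have h1 := h.2
    rw [hw.1.1] at h1
    exact absurd hw.2 (not_lt.2 h1.le)
  let V := {w : W // isV w}
  -- the cardinality of `V`
  have hVcard : (Fintype.card W : ℝ) - Bad0.card ≤ 2 * Fintype.card V := by
    have h1 : (Finset.univ \ Bad0) ⊆ (Finset.univ : Finset (V × ZMod 2)).image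
        (fun q => tp q.2 q.1.1) := by
      intro w hw
      rw [Finset.mem_sdiff] at hw
      have h2 := hW0 w hw.2
      by_cases h3 : isV w
      · exact Finset.mem_image.2 ⟨(⟨w, h3⟩, 0), Finset.mem_univ _, htp0 w⟩
      · refine Finset.mem_image.2 ⟨(⟨τ w, hisV w h2 h3⟩, 1), Finset.mem_univ _, ?_⟩
        simp only [htp1]
        exact h2.1
    have h2 := (Finset.card_le_card h1).trans Finset.card_image_le
    rw [Finset.card_univ, Fintype.card_prod, ZMod.card] at h2
    have h3 : Fintype.card W ≤ Bad0.card + (Finset.univ \ Bad0).card := by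
      have := Finset.card_sdiff_add_card (Finset.univ : Finset W) Bad0
      have h4 := Finset.card_le_card (Finset.subset_union_left (s₁ := (Finset.univ : Finset W))
        (s₂ := Bad0))
      rw [Finset.card_univ] at h4
      omega
    have h4 : Fintype.card W ≤ Bad0.card + Fintype.card V * 2 := by omega
    have h5 : (Fintype.card W : ℝ) ≤ Bad0.card + Fintype.card V * 2 := by exact_mod_cast h4
    linarith
  have hWpos : (0 : ℝ) < Fintype.card W := by exact_mod_cast Fintype.card_pos
  have hB0' : (Bad0.card : ℝ) ≤ 1 / 2 * Fintype.card W :=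
    hB0.trans (mul_le_mul_of_nonneg_right (min_le_left _ _) hWpos.le)
  have hB0'' : (Bad0.card : ℝ) ≤ ε / (4 * K) * Fintype.card W :=
    hB0.trans (mul_le_mul_of_nonneg_right (min_le_right _ _) hWpos.le)
  have hVpos : (0 : ℝ) < Fintype.card V := by linarith
  have hVne : Nonempty V := by
    rw [← Fintype.card_pos_iff]
    exact_mod_cast hVpos
  obtain ⟨v0⟩ := hVne
  let r : W → V := fun w => if h : isV w then ⟨w, h⟩ else if h' : isV (τ w) then ⟨τ w, h'⟩ else v0
  let al : W → ZMod 2 := fun w => if isV w then 0 else 1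
  have hr1 : ∀ w, W0 w → ((r w : V) : W) = tp (al w) w := by
    intro w hw
    by_cases h1 : isV w
    · simp only [r, al, dif_pos h1, if_pos h1, htp0]
    · have h2 := hisV w hw h1
      simp only [r, al, dif_neg h1, if_neg h1, dif_pos h2, htp1]
  have hr2 : ∀ w, W0 w → ∀ a, r (tp a w) = r w := by
    intro w hw a
    rcases zmod2_cases a with rfl | rfl
    · rw [htp0]
    · rw [htp1]
      by_cases h1 : isV w
      · have h2 := hisV2 w h1
        have h3 : isV (τ (τ w)) := by rw [hw.1]; exact h1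
        apply Subtype.ext
        simp only [r, dif_pos h1, dif_neg h2, dif_pos h3, hw.1]
      · have h2 := hisV w hw h1
        simp only [r, dif_neg h1, dif_pos h2]
  have hal : ∀ w, W0 w → ∀ a, al (tp a w) = al w + a := by
    intro w hw a
    rcases zmod2_cases a with rfl | rfl
    · rw [htp0, add_zero]
    · rw [htp1]
      by_cases h1 : isV w
      · have h2 := hisV2 w h1
        simp only [al, if_pos h1, if_neg h2, zero_add]
      · have h2 := hisV w hw h1
        simp only [al, if_neg h1, if_pos h2]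
        decide
  -- the permutations
  let Dg : G → Set V := fun g => {v | W0 (ψ (s g) v) ∧ ψ (s g) (τ v) = τ (ψ (s g) v)}
  let f : G → V → V := fun g v => r (ψ (s g) v)
  have hinj : ∀ g, Set.InjOn (f g) (Dg g) := by
    intro g v hv v' hv' h1
    have h2 : tp (al (ψ (s g) v)) (ψ (s g) v) = tp (al (ψ (s g) v')) (ψ (s g) v') := by
      rw [← hr1 _ hv.1, ← hr1 _ hv'.1]
      exact congrArg Subtype.val h1
    have h3 : ψ (s g) v = tp (al (ψ (s g) v) + al (ψ (s g) v')) (ψ (s g) v') := by
      have h4 := congrArg (tp (al (ψ (s g) v))) h2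
      rw [htpadd _ hv.1, htpadd _ hv'.1] at h4
      have h5 : al (ψ (s g) v) + al (ψ (s g) v) = 0 := CharTwo.add_self_eq_zero _
      rw [h5, htp0] at h4
      exact h4
    rcases zmod2_cases (al (ψ (s g) v) + al (ψ (s g) v')) with h4 | h4
    · rw [h4, htp0] at h3
      exact Subtype.ext ((ψ (s g)).injective h3)
    · exfalso
      rw [h4, htp1, ← hv'.2] at h3
      have h5 : (v : W) = τ v' := (ψ (s g)).injective h3
      have h6 := hisV2 v' v'.2
      rw [← h5] at h6
      exact h6 v.2
  have hext : ∀ g, ∃ π : Perm V, ∀ v ∈ Dg g, π v = f g v := by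
    intro g
    obtain ⟨π, hπ⟩ := Set.MapsTo.exists_equiv_extend_of_card_eq (α := V) (β := V)
      (t := Finset.univ) (by rw [Finset.card_univ]) (s := Dg g) (f := f g)
      (fun _ _ => Finset.mem_coe.2 (Finset.mem_univ _)) (hinj g)
    refine ⟨π.trans (Equiv.subtypeUnivEquiv (fun x => Finset.mem_univ x)), ?_⟩
    intro v hv
    exact hπ v hv
  choose σ hσ using hext
  refine ⟨V, inferInstance, ⟨v0⟩, σ, fun g v => al (ψ (s g) v),
    Finset.univ.filter (fun v : V => (v : W) ∈ Bad2), ?_, ?_⟩
  · have h1 : (Finset.univ.filter (fun v : V => (v : W) ∈ Bad2)).card ≤ Bad2.card := by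
      apply Finset.card_le_card_of_injOn (fun v : V => (v : W))
      · intro v hv
        simpa using hv
      · intro v _ v' _ h
        exact Subtype.ext h
    have h2 : ((Finset.univ.filter (fun v : V => (v : W) ∈ Bad2)).card : ℝ) ≤ Bad2.card := by
      exact_mod_cast h1
    have h3 : (Bad2.card : ℝ) ≤ K * Bad0.card := by
      refine hB2.trans ?_
      simp only [Finset.card_singleton, Nat.cast_one, K]
      rw [mul_assoc]
      exact mul_le_mul_of_nonneg_left hB1 (by norm_num)
    have h4 : K * Bad0.card ≤ ε / 4 * Fintype.card W := by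
      have := mul_le_mul_of_nonneg_left hB0'' hK.le
      refine this.trans (le_of_eq ?_)
      field_simp
    have h5 : (Fintype.card W : ℝ) ≤ 4 * Fintype.card V := by linarith
    nlinarith
  · intro v hv
    have hv' : (v : W) ∉ Bad2 := by simpa using hv
    obtain ⟨hv1, hv2⟩ := hg2 _ hv'
    have hvτ : τ (v : W) ∉ Bad1 := hv2 () (Finset.mem_singleton_self _)
    obtain ⟨hx0, hxP⟩ := hg1 _ hv1
    -- the value at `g`
    have hDg : ∀ x : W, x ∉ Bad0 → (∀ g ∈ P, ψ g x ∉ Bad0) → ∀ g ∈ S0,
        W0 (ψ (s g) x) ∧ ψ (s g) (τ x) = τ (ψ (s g) x) := by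
      intro x hx hx' g hg
      refine ⟨hW0 _ (hx' _ (hPs g hg)), ?_⟩
      have h1 := hmul x hx (s g) (hPs g hg) z hPz
      have h2 := hmul x hx z hPz (s g) (hPs g hg)
      rw [← D.comm, h2] at h1
      exact h1.symm
    have hval : ∀ g ∈ S0, σ g v = r (ψ (s g) v) := fun g hg =>
      hσ g v (hDg v hx0 hxP g hg)
    constructor
    · intro g hg h hh
      have hgS : g ∈ S0 := Finset.mem_union_left _ hg
      have hhS : h ∈ S0 := Finset.mem_union_left _ hh
      have hghS : g * h ∈ S0 := Finset.mem_union_right _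
        (Finset.mem_image.2 ⟨(g, h), Finset.mem_product.2 ⟨hg, hh⟩, rfl⟩)
      set y := ψ (s h) (v : W) with hy
      set y' := ψ (s (g * h)) (v : W) with hy'
      have hyB : y ∉ Bad0 := hxP _ (hPs h hhS)
      have hy'B : y' ∉ Bad0 := hxP _ (hPs _ hghS)
      have hyW := hW0 y hyB
      have hy'W := hW0 y' hy'B
      -- the product
      have h1 : ψ (s g) y = tp (coch s g h) y' := by
        rw [hy, ← hmul _ hx0 _ (hPs g hgS) _ (hPs h hhS), coch_spec D hs,
          hmul _ hx0 _ (hPzp _) _ (hPs _ hghS), ← hy', htpz y' hy'B]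
      have h2 : ψ (s g) (τ y) = τ (ψ (s g) y) := by
        have h3 := hmul y hyB (s g) (hPs g hgS) z hPz
        have h4 := hmul y hyB z hPz (s g) (hPs g hgS)
        rw [← D.comm, h4] at h3
        exact h3.symm
      have h3 : ∀ a, ψ (s g) (tp a y) = tp a (ψ (s g) y) := by
        intro a
        rcases zmod2_cases a with rfl | rfl
        · rw [htp0, htp0]
        · rw [htp1, htp1, h2]
      -- the point `σ h v`
      have h4 : ((σ h v : V) : W) = tp (al y) y := by
        rw [hval h hhS, hr1 _ hyW]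
      have h5 : ψ (s g) (σ h v : V) = tp (al y + coch s g h) y' := by
        rw [h4, h3, h1, htpadd _ hy'W]
      have h6 : ((σ h v : V) : W) ∉ Bad0 := by
        rw [h4]
        have h7 : tp (al y) y = ψ (zp z (al y) * s h) (v : W) := by
          rw [hmul _ hx0 _ (hPzp _) _ (hPs h hhS), ← hy, htpz y hyB]
        rw [h7]
        exact hxP _ (hPzs _ h hhS)
      have h7 : σ h v ∈ Dg g := by
        refine ⟨?_, ?_⟩
        · rw [h5]
          exact hW0tp _ hy'W _
        · have h8 := hmul _ h6 (s g) (hPs g hgS) z hPz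
          have h9 := hmul _ h6 z hPz (s g) (hPs g hgS)
          rw [← D.comm, h9] at h8
          exact h8.symm
      have h8 : σ g (σ h v) = r y' := by
        rw [hσ g _ h7]
        change r (ψ (s g) (σ h v : V)) = r y'
        rw [h5, hr2 _ hy'W]
      refine ⟨?_, ?_⟩
      · rw [h8, hval _ hghS]
      · change al y' + coch s g h = al (ψ (s g) (σ h v : V)) + al y
        rw [h5, hal _ hy'W]
        have h9 : al y + al y = 0 := CharTwo.add_self_eq_zero _
        linear_combination -h9
    · intro g hg hg1 h1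
      have hgS : g ∈ S0 := Finset.mem_union_left _ hg
      have hyB : ψ (s g) (v : W) ∉ Bad0 := hxP _ (hPs g hgS)
      have h2 := congrArg Subtype.val h1
      rw [hval g hgS, hr1 _ (hW0 _ hyB), ← htpz _ hyB, ← hmul _ hx0 _ (hPzp _) _ (hPs g hgS)] at h2
      refine hfree _ hx0 _ (hPzs _ g hgS) ?_ h2
      intro h3
      apply hg1
      have h4 := congrArg p h3
      rwa [map_mul, D.p_zp, one_mul, hs, map_one] at h4

theorem triv_of_isSofic {Γ G : Type} [Group Γ] [Group G] {p : Γ →* G} {z : Γ} (D : Dbl p z)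
    {s : G → Γ} (hs : ∀ g, p (s g) = g) (hΓ : IsSofic Γ) : Triv G (coch s) := by
  intro F ε hε
  obtain ⟨X, i1, i2, σ, u, B, hB, h⟩ := striv_of_isSofic D hs hΓ F ε hε
  exact ⟨X, i1, i2, σ, u, B, hB, fun x hx => (h x hx).1⟩

theorem quot_isSofic {Γ G : Type} [Group Γ] [Group G] {p : Γ →* G} {z : Γ} (D : Dbl p z)
    (hΓ : IsSofic Γ) : IsSofic G := by
  apply isSofic_of_sapp
  obtain ⟨s, hs⟩ := D.surj.hasRightInverse
  intro F ε hε
  obtain ⟨X, i1, i2, σ, u, B, hB, h⟩ := striv_of_isSofic D hs hΓ F ε hε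
  exact ⟨X, i1, i2, σ, B, hB, fun x hx => ⟨fun g hg k hk => ((h x hx).1 g hg k hk).1,
    (h x hx).2⟩⟩

end Pool.Agent.H96.DC
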