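import Mathlib

set_option autoImplicit false

/-!
# Graph products of groups: definition
-/

namespace Pool.Agent.H96.DC

/-- The defining relators of the graph product: the commutators `a b a⁻¹ b⁻¹`, where `a ∈ A v`,
`b ∈ A w` and the vertices `v`, `w` are adjacent. -/
def gpRel {V : Type} (Δ : SimpleGraph V) (A : V → Type) [∀ v, Group (A v)] :
    Set (Monoid.CoprodI A) :=
  {x | ∃ (v w : V) (a : A v) (b : A w), Δ.Adj v w ∧
    x = Monoid.CoprodI.of a * Monoid.CoprodI.of b * (Monoid.CoprodI.of a)⁻¹ *
      (Monoid.CoprodI.of b)⁻¹}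

/-- The graph product of the groups `A v`, `v ∈ V`, over the graph `Δ`: the free product modulo
the relations `a b = b a`, where `a ∈ A v`, `b ∈ A w` and `v`, `w` are adjacent. -/
def GP {V : Type} (Δ : SimpleGraph V) (A : V → Type) [∀ v, Group (A v)] : Type :=
  Monoid.CoprodI A ⧸ Subgroup.normalClosure (gpRel Δ A)

instance instGroupGP {V : Type} (Δ : SimpleGraph V) (A : V → Type) [∀ v, Group (A v)] :
    Group (GP Δ A) :=
  inferInstanceAs (Group (Monoid.CoprodI A ⧸ Subgroup.normalClosure (gpRel Δ A)))

/-- The map of the vertex group `A v` to the graph product. -/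
def vtx {V : Type} (Δ : SimpleGraph V) (A : V → Type) [∀ v, Group (A v)] (v : V) :
    A v →* GP Δ A :=
  (QuotientGroup.mk' (Subgroup.normalClosure (gpRel Δ A))).comp Monoid.CoprodI.of

end Pool.Agent.H96.DC
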