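import Pool.Agent.H96.DC.Tw
import Pool.Agent.H96.DC.GPDefs

set_option autoImplicit false

/-!
# Graph products of groups: universal property, retractions, and double covers
-/

namespace Pool.Agent.H96.DC

open Pool.Agent.Helper70.Sofic

namespace GP

section
variable {V : Type} {Δ : SimpleGraph V} {A : V → Type} [∀ v, Group (A v)]

theorem vtx_comm {v w : V} (h : Δ.Adj v w) (a : A v) (b : A w) :
    vtx Δ A v a * vtx Δ A w b = vtx Δ A w b * vtx Δ A v a := by
  have h1 : vtx Δ A v a * vtx Δ A w b * (vtx Δ A v a)⁻¹ * (vtx Δ A w b)⁻¹ = 1 := by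
    change (QuotientGroup.mk' (Subgroup.normalClosure (gpRel Δ A)))
        (Monoid.CoprodI.of a * Monoid.CoprodI.of b * (Monoid.CoprodI.of a)⁻¹ *
          (Monoid.CoprodI.of b)⁻¹) = 1
    rw [QuotientGroup.mk'_apply, QuotientGroup.eq_one_iff]
    exact Subgroup.subset_normalClosure ⟨v, w, a, b, h, rfl⟩
  rw [mul_inv_eq_one, mul_inv_eq_iff_eq_mul] at h1
  exact h1

variable {H : Type} [Group H]

/-- the universal property -/
def lift (f : ∀ v, A v →* H)
    (hf : ∀ v w (a : A v) (b : A w), Δ.Adj v w → f v a * f w b = f w b * f v a) : GP Δ A →* H :=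
  QuotientGroup.lift (Subgroup.normalClosure (gpRel Δ A)) (Monoid.CoprodI.lift f) (by
    have h1 : Subgroup.normalClosure (gpRel Δ A) ≤ (Monoid.CoprodI.lift f).ker := by
      apply Subgroup.normalClosure_le_normal
      rintro x ⟨v, w, a, b, h, rfl⟩
      change Monoid.CoprodI.lift f (Monoid.CoprodI.of a * Monoid.CoprodI.of b *
        (Monoid.CoprodI.of a)⁻¹ * (Monoid.CoprodI.of b)⁻¹) = 1
      rw [map_mul, map_mul, map_mul, map_inv, map_inv, Monoid.CoprodI.lift_of,
        Monoid.CoprodI.lift_of, mul_inv_eq_one, mul_inv_eq_iff_eq_mul]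
      exact hf v w a b h
    exact h1)

theorem lift_vtx (f : ∀ v, A v →* H)
    (hf : ∀ v w (a : A v) (b : A w), Δ.Adj v w → f v a * f w b = f w b * f v a) (v : V)
    (a : A v) : lift (Δ := Δ) f hf (vtx Δ A v a) = f v a :=
  Monoid.CoprodI.lift_of f a

theorem hom_ext {f g : GP Δ A →* H} (h : ∀ v a, f (vtx Δ A v a) = g (vtx Δ A v a)) : f = g := by
  have h1 : f.comp (QuotientGroup.mk' _) = g.comp (QuotientGroup.mk' _) := by
    apply Monoid.CoprodI.ext_hom
    intro v
    ext a
    exact h v a
  ext x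
  obtain ⟨y, rfl⟩ := QuotientGroup.mk'_surjective _ x
  exact DFunLike.congr_fun h1 y

variable [DecidableEq V]

/-- the map to the direct product of the vertex groups -/
def R (Δ : SimpleGraph V) (A : V → Type) [∀ v, Group (A v)] : GP Δ A →* (∀ v, A v) :=
  lift (fun v => MonoidHom.mulSingle A v) fun v w a b h =>
    (Pi.mulSingle_commute (f := A) h.ne a b)

theorem R_vtx (v : V) (a : A v) : R Δ A (vtx Δ A v a) = Pi.mulSingle v a := lift_vtx _ _ v a

theorem vtx_injective (v : V) : Function.Injective (vtx Δ A v) := by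
  intro a b h
  have h1 := congrArg (fun x => R Δ A x v) h
  simp only [R_vtx, Pi.mulSingle_eq_same] at h1
  exact h1

theorem R_finite (x : GP Δ A) : {v | R Δ A x v ≠ 1}.Finite := by
  let S : Subgroup (GP Δ A) :=
    { carrier := {x | {v | R Δ A x v ≠ 1}.Finite}
      one_mem' := by
        change {v | R Δ A 1 v ≠ 1}.Finite
        simp
      mul_mem' := by
        intro x y hx hy
        refine (Set.Finite.union hx hy).subset ?_
        intro v hv
        by_contra hcon
        rw [Set.mem_union, not_or] at hcon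
        obtain ⟨h1, h2⟩ := hcon
        have h1' : R Δ A x v = 1 := not_not.1 h1
        have h2' : R Δ A y v = 1 := not_not.1 h2
        apply hv
        rw [map_mul, Pi.mul_apply, h1', h2', one_mul]
      inv_mem' := by
        intro x hx
        refine Set.Finite.subset hx ?_
        intro v hv h
        apply hv
        rw [map_inv, Pi.inv_apply, h, inv_one] }
  have hv : ∀ v (a : A v), vtx Δ A v a ∈ S := by
    intro v a
    refine (Set.finite_singleton v).subset ?_
    intro w hw
    by_contra hne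
    apply hw
    rw [R_vtx]
    exact Pi.mulSingle_eq_of_ne hne a
  let j : GP Δ A →* S := lift (fun v => (vtx Δ A v).codRestrict S (hv v)) fun v w a b h =>
    Subtype.ext (vtx_comm h a b)
  have hj : S.subtype.comp j = MonoidHom.id _ := by
    apply hom_ext
    intro v a
    change ((j (vtx Δ A v a) : S) : GP Δ A) = vtx Δ A v a
    rw [lift_vtx]
    rfl
  have h1 : x = ((j x : S) : GP Δ A) := (DFunLike.congr_fun hj x).symm
  rw [h1]
  exact (j x).2

/-- the support of an element -/
noncomputable def sup (x : GP Δ A) : Finset V := (R_finite x).toFinset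

theorem notMem_sup {x : GP Δ A} {v : V} (h : v ∉ sup x) : R Δ A x v = 1 := by
  rw [sup, Set.Finite.mem_toFinset] at h
  exact not_not.1 h

end

/-! ### The cocycle -/

section
variable {V : Type} [LinearOrder V] {Δ : SimpleGraph V} {A : V → Type} [∀ v, Group (A v)]
  {Γ : Type} [Group Γ]

/-- the data of sections -/
structure GSec (p : Γ →* GP Δ A) (z : Γ) (s : ∀ v, A v → Γ) : Prop where
  D : Dbl p z
  hs : ∀ v a, p (s v a) = vtx Δ A v a
  hs1 : ∀ v, s v 1 = 1

variable (s : ∀ v, A v → Γ)

/-- the cochain of a section -/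
noncomputable def t1 (v : V) (g h : GP Δ A) : ZMod 2 :=
  dif (s v (R Δ A g v) * s v (R Δ A h v)) (s v (R Δ A g v * R Δ A h v))

open Classical in
/-- the commutator pairing of two sections -/
noncomputable def t2 (q : V × V) (g h : GP Δ A) : ZMod 2 :=
  if q.1 < q.2 ∧ Δ.Adj q.1 q.2 then cm (s q.2 (R Δ A g q.2)) (s q.1 (R Δ A h q.1)) else 0

/-- the sum over a finite set of vertices -/
noncomputable def CU (U : Finset V) (g h : GP Δ A) : ZMod 2 :=
  ∑ v ∈ U, t1 s v g h + ∑ q ∈ U ×ˢ U, t2 s q g h

/-- the cocycle -/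
noncomputable def CC (g h : GP Δ A) : ZMod 2 := CU s (sup g ∪ sup h) g h

variable {s} {p : Γ →* GP Δ A} {z : Γ} (H : GSec p z s)

include H

theorem t1_eq_zero {v : V} {g h : GP Δ A} (h1 : v ∉ sup g ∪ sup h) : t1 s v g h = 0 := by
  rw [Finset.mem_union, not_or] at h1
  rw [t1, notMem_sup h1.1, notMem_sup h1.2, mul_one, H.hs1, mul_one, dif, if_pos rfl]

theorem comm_vtx {v w : V} (hvw : Δ.Adj v w) (a : A v) (b : A w) :
    p (s w b) * p (s v a) = p (s v a) * p (s w b) := by
  rw [H.hs, H.hs]
  exact (vtx_comm hvw a b).symm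

theorem cm_one_left {x : Γ} : cm (1 : Γ) x = 0 := by
  rw [cm, one_mul, mul_one, dif, if_pos rfl]

theorem cm_one_right {x : Γ} : cm x (1 : Γ) = 0 := by
  rw [cm, one_mul, mul_one, dif, if_pos rfl]

theorem t2_eq_zero {q : V × V} {g h : GP Δ A} (h1 : q ∉ (sup g ∪ sup h) ×ˢ (sup g ∪ sup h)) :
    t2 s q g h = 0 := by
  rw [Finset.mem_product, not_and_or] at h1
  rw [t2]
  split_ifs with h2
  · rcases h1 with h1 | h1
    · rw [Finset.mem_union, not_or] at h1
      rw [notMem_sup h1.2, H.hs1, cm_one_right H]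
    · rw [Finset.mem_union, not_or] at h1
      rw [notMem_sup h1.1, H.hs1, cm_one_left H]
  · rfl

theorem CC_eq {U : Finset V} {g h : GP Δ A} (hg : sup g ⊆ U) (hh : sup h ⊆ U) :
    CC s g h = CU s U g h := by
  have hU : sup g ∪ sup h ⊆ U := Finset.union_subset hg hh
  unfold CC CU
  congr 1
  · exact Finset.sum_subset hU fun v _ hv => t1_eq_zero H hv
  · exact Finset.sum_subset (Finset.product_subset_product hU hU) fun q _ hq => t2_eq_zero H hq

theorem coc_t1 (v : V) : Coc (t1 (Δ := Δ) s v) := by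
  have h1 := Coc.of_section H.D (vtx Δ A v) (H.hs v) (H.hs1 v)
  exact h1.comp ((Pi.evalMonoidHom A v).comp (R Δ A))

theorem t2_bimul (q : V × V) :
    (∀ g g' h, t2 (Δ := Δ) s q (g * g') h = t2 s q g h + t2 s q g' h) ∧
    ∀ g h h', t2 (Δ := Δ) s q g (h * h') = t2 s q g h + t2 s q g h' := by
  by_cases hq : q.1 < q.2 ∧ Δ.Adj q.1 q.2
  · constructor
    · intro g g' h
      simp only [t2, if_pos hq, map_mul, Pi.mul_apply]
      have h1 : s q.2 (R Δ A g q.2) * s q.2 (R Δ A g' q.2) =
          zp z (dif (s q.2 (R Δ A g q.2) * s q.2 (R Δ A g' q.2))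
            (s q.2 (R Δ A g q.2 * R Δ A g' q.2))) * s q.2 (R Δ A g q.2 * R Δ A g' q.2) :=
        H.D.dif_spec (by rw [map_mul, H.hs, H.hs, H.hs, map_mul])
      rw [← cm_mul_left H.D (comm_vtx H hq.2 _ _) (comm_vtx H hq.2 _ _), h1]
      exact (cm_zp_left H.D _ _ _ (comm_vtx H hq.2 _ _)).symm
    · intro g h h'
      simp only [t2, if_pos hq, map_mul, Pi.mul_apply]
      have h1 : s q.1 (R Δ A h q.1) * s q.1 (R Δ A h' q.1) =
          zp z (dif (s q.1 (R Δ A h q.1) * s q.1 (R Δ A h' q.1))
            (s q.1 (R Δ A h q.1 * R Δ A h' q.1))) * s q.1 (R Δ A h q.1 * R Δ A h' q.1) :=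
        H.D.dif_spec (by rw [map_mul, H.hs, H.hs, H.hs, map_mul])
      rw [← cm_mul_right H.D (comm_vtx H hq.2 _ _) (comm_vtx H hq.2 _ _), h1]
      exact (cm_zp_right H.D _ _ _ (comm_vtx H hq.2 _ _)).symm
  · constructor
    · intro g g' h
      simp only [t2, if_neg hq, add_zero]
    · intro g h h'
      simp only [t2, if_neg hq, add_zero]

theorem coc_CU (U : Finset V) : Coc (CU (Δ := Δ) s U) :=
  (Coc.sum U (fun v => t1 s v) fun v _ => coc_t1 H v).add
    (Coc.sum (U ×ˢ U) (fun q => t2 s q) fun q _ => Coc.bimul (t2_bimul H q).1 (t2_bimul H q).2)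

theorem coc_CC : Coc (CC (Δ := Δ) s) where
  coc g h k := by
    let U : Finset V := sup g ∪ (sup h ∪ (sup k ∪ (sup (g * h) ∪ sup (h * k))))
    have hU1 : sup g ⊆ U := Finset.subset_union_left
    have hU2 : sup h ⊆ U := Finset.subset_union_left.trans Finset.subset_union_right
    have hU3 : sup k ⊆ U := (Finset.subset_union_left.trans Finset.subset_union_right).trans
      Finset.subset_union_right
    have hU4 : sup (g * h) ⊆ U := ((Finset.subset_union_left.trans
      Finset.subset_union_right).trans Finset.subset_union_right).trans Finset.subset_union_right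
    have hU5 : sup (h * k) ⊆ U := ((Finset.subset_union_right.trans
      Finset.subset_union_right).trans Finset.subset_union_right).trans Finset.subset_union_right
    rw [CC_eq H hU1 hU2, CC_eq H hU4 hU3, CC_eq H hU1 hU5, CC_eq H hU2 hU3]
    exact (coc_CU H U).coc g h k
  one := by
    rw [CC_eq H (Finset.Subset.refl (sup (1 : GP Δ A))) (Finset.Subset.refl _)]
    exact (coc_CU H _).one

theorem triv_CC (hT : ∀ v, Triv (A v) (fun a b => dif (s v a * s v b) (s v (a * b)))) :
    Triv (GP Δ A) (CC s) := by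
  classical
  apply triv_local
  intro F
  refine ⟨CU s (F.biUnion sup), ?_, ?_⟩
  · refine triv_add (triv_sum _ (fun v => t1 s v) fun v _ => ?_)
      (triv_sum _ (fun q => t2 s q) fun q _ => triv_bimul _ (t2_bimul H q).1 (t2_bimul H q).2)
    exact triv_comp ((Pi.evalMonoidHom A v).comp (R Δ A)) (hT v)
  · intro g hg h hh
    exact CC_eq H (Finset.subset_biUnion_of_mem sup hg) (Finset.subset_biUnion_of_mem sup hh)

/-- value of the cocycle on two elements of one vertex group -/
theorem CC_same (v : V) (a b : A v) :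
    CC s (vtx Δ A v a) (vtx Δ A v b) = dif (s v a * s v b) (s v (a * b)) := by
  have hsup : ∀ a : A v, sup (vtx Δ A v a) ⊆ {v} := by
    intro a w hw
    rw [sup, Set.Finite.mem_toFinset] at hw
    by_contra hne
    apply hw
    rw [R_vtx]
    exact Pi.mulSingle_eq_of_ne (fun h => hne (Finset.mem_singleton.2 h)) a
  rw [CC_eq H (hsup a) (hsup b), CU, Finset.sum_singleton, Finset.singleton_product_singleton,
    Finset.sum_singleton, t1, t2, if_neg (fun h => lt_irrefl v h.1), add_zero, R_vtx, R_vtx,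
    Pi.mulSingle_eq_same, Pi.mulSingle_eq_same]

/-- value of the cocycle on elements of two adjacent vertex groups -/
theorem CC_diff {v w : V} (hvw : v < w) (hadj : Δ.Adj v w) (a : A v) (b : A w) :
    CC s (vtx Δ A w b) (vtx Δ A v a) = cm (s w b) (s v a) ∧
      CC s (vtx Δ A v a) (vtx Δ A w b) = 0 := by
  have hne : v ≠ w := hvw.ne
  have hsup : ∀ (u : V) (c : A u) (T : Finset V), u ∈ T → sup (vtx Δ A u c) ⊆ T := by
    intro u c T hu x hx
    rw [sup, Set.Finite.mem_toFinset] at hx
    by_contra hcon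
    apply hx
    rw [R_vtx]
    exact Pi.mulSingle_eq_of_ne (fun h => hcon (by rw [h]; exact hu)) c
  have hv : v ∈ ({v, w} : Finset V) := by simp
  have hw : w ∈ ({v, w} : Finset V) := by simp
  have ht1 : ∀ (u : V) (g h : GP Δ A), (R Δ A g u = 1 ∨ R Δ A h u = 1) → t1 s u g h = 0 := by
    rintro u g h (h1 | h1)
    · rw [t1, h1, one_mul, H.hs1, one_mul, dif, if_pos rfl]
    · rw [t1, h1, mul_one, H.hs1, mul_one, dif, if_pos rfl]
  have ht2 : ∀ (q : V × V) (g h : GP Δ A), (R Δ A g q.2 = 1 ∨ R Δ A h q.1 = 1) →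
      t2 s q g h = 0 := by
    rintro q g h h1
    rw [t2]
    split_ifs with h2
    · rcases h1 with h1 | h1
      · rw [h1, H.hs1, cm_one_left H]
      · rw [h1, H.hs1, cm_one_right H]
    · rfl
  have hR : ∀ (u x : V) (c : A u), x ≠ u → R Δ A (vtx Δ A u c) x = 1 := by
    intro u x c hxu
    rw [R_vtx]
    exact Pi.mulSingle_eq_of_ne hxu c
  constructor
  · rw [CC_eq H (hsup w b _ hw) (hsup v a _ hv), CU]
    have e1 : ∑ u ∈ ({v, w} : Finset V), t1 s u (vtx Δ A w b) (vtx Δ A v a) = 0 := by
      apply Finset.sum_eq_zero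
      intro u _
      by_cases h : u = w
      · exact ht1 _ _ _ (Or.inr (hR v u a (by rw [h]; exact hne.symm)))
      · exact ht1 _ _ _ (Or.inl (hR w u b h))
    have e2 : ∑ q ∈ ({v, w} : Finset V) ×ˢ {v, w}, t2 s q (vtx Δ A w b) (vtx Δ A v a) =
        t2 s (v, w) (vtx Δ A w b) (vtx Δ A v a) := by
      apply Finset.sum_eq_single_of_mem (v, w) (Finset.mem_product.2 ⟨hv, hw⟩)
      rintro ⟨x, y⟩ _ hxy
      apply ht2
      by_cases hy : y = w
      · right
        apply hR
        rintro rfl
        exact hxy (by rw [hy])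
      · left
        exact hR w y b hy
    rw [e1, e2, zero_add, t2, if_pos ⟨hvw, hadj⟩, R_vtx, R_vtx, Pi.mulSingle_eq_same,
      Pi.mulSingle_eq_same]
  · rw [CC_eq H (hsup v a _ hv) (hsup w b _ hw), CU]
    have e1 : ∑ u ∈ ({v, w} : Finset V), t1 s u (vtx Δ A v a) (vtx Δ A w b) = 0 := by
      apply Finset.sum_eq_zero
      intro u _
      by_cases h : u = w
      · exact ht1 _ _ _ (Or.inl (hR v u a (by rw [h]; exact hne.symm)))
      · exact ht1 _ _ _ (Or.inr (hR w u b h))
    have e2 : ∑ q ∈ ({v, w} : Finset V) ×ˢ {v, w}, t2 s q (vtx Δ A v a) (vtx Δ A w b) = 0 := by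
      apply Finset.sum_eq_zero
      rintro ⟨x, y⟩ _
      by_cases hy : y = v
      · by_cases hx : x = w
        · rw [t2, if_neg]
          rintro ⟨h1, -⟩
          change x < y at h1
          rw [hx, hy] at h1
          exact absurd (h1.trans hvw) (lt_irrefl _)
        · exact ht2 _ _ _ (Or.inr (hR w x b hx))
      · exact ht2 _ _ _ (Or.inl (hR v y a hy))
    rw [e1, e2, add_zero]

theorem main_aux (hG : IsSofic (GP Δ A))
    (hT : ∀ v, Triv (A v) (fun a b => dif (s v a * s v b) (s v (a * b)))) : IsSofic Γ := by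
  have hC := coc_CC H
  have hx : ∀ x : ZMod 2, x + x = 0 := by decide
  -- the homomorphisms of the vertex groups to the twisted group
  let f : ∀ v, A v →* Tw H.D hC := fun v =>
    { toFun := fun a => ⟨s v a⟩
      map_one' := Tw.ext' (H.hs1 v)
      map_mul' := fun a b => by
        apply Tw.ext'
        rw [tw_mul, H.hs, H.hs, CC_same H]
        have h1 : s v a * s v b = zp z (dif (s v a * s v b) (s v (a * b))) * s v (a * b) :=
          H.D.dif_spec (by rw [map_mul, H.hs, H.hs, H.hs, map_mul])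
        change s v (a * b) = zp z (dif (s v a * s v b) (s v (a * b))) * (s v a * s v b)
        rw [h1, ← mul_assoc, ← H.D.zp_add, ← h1, hx, H.D.zp_zero, one_mul] }
  have hlt : ∀ v w (a : A v) (b : A w), v < w → Δ.Adj v w → f w b * f v a = f v a * f w b := by
    intro v w a b hvw hadj
    apply Tw.ext'
    rw [tw_mul, tw_mul]
    change zp z (CC s (p (s w b)) (p (s v a))) * (s w b * s v a) =
      zp z (CC s (p (s v a)) (p (s w b))) * (s v a * s w b)
    rw [H.hs, H.hs, (CC_diff H hvw hadj a b).1, (CC_diff H hvw hadj a b).2, H.D.zp_zero, one_mul]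
    have h1 := cm_spec H.D (comm_vtx H hadj a b)
    calc zp z (cm (s w b) (s v a)) * (s w b * s v a)
        = zp z (cm (s w b) (s v a)) * (zp z (cm (s w b) (s v a)) * (s v a * s w b)) := by
          rw [← h1]
      _ = s v a * s w b := by rw [← mul_assoc, ← H.D.zp_add, hx, H.D.zp_zero, one_mul]
  let Θ : GP Δ A →* Tw H.D hC := lift f fun v w a b hadj => by
    rcases lt_trichotomy v w with h | h | h
    · exact (hlt v w a b h hadj).symm
    · exact absurd h hadj.ne
    · exact hlt w v b a h hadj.symm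
  let π : Tw H.D hC →* GP Δ A :=
    { toFun := fun x => p x.val
      map_one' := map_one p
      map_mul' := fun x y => by
        rw [tw_mul, map_mul, H.D.p_zp, one_mul, map_mul] }
  have hπ : π.comp Θ = MonoidHom.id _ := by
    apply hom_ext
    intro v a
    change p (Θ (vtx Δ A v a)).val = vtx Δ A v a
    rw [lift_vtx]
    exact H.hs v a
  exact isSofic_of_twist H.D hC Θ (fun g => DFunLike.congr_fun hπ g) hG (triv_CC H hT)

end

end GP

/-- Double covers of graph products. -/
theorem gp_main {V : Type} {Δ : SimpleGraph V} {A : V → Type} [∀ v, Group (A v)]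
    {Γ : Type} [Group Γ] {p : Γ →* GP Δ A} {z : Γ} (D : Dbl p z) (hG : IsSofic (GP Δ A))
    (hA : ∀ v, IsSofic ((vtx Δ A v).range.comap p)) : IsSofic Γ := by
  classical
  letI : LinearOrder V := IsWellOrder.linearOrder WellOrderingRel
  choose s hs hs1 hT hA' using fun v => exists_lift D (vtx Δ A v) (GP.vtx_injective v) (hA v)
  exact GP.main_aux ⟨D, hs, hs1⟩ hG hT

end Pool.Agent.H96.DC
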