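import Pool.Agent.H96.DC.Cls
import Pool.Agent.H96.DC.GP

set_option autoImplicit false

/-!
# Retracts, and the class of groups all of whose double covers are sofic, for graph products
-/

namespace Pool.Agent.H96.DC

open Pool.Agent.Helper70.Sofic

/-- The class passes to retracts. -/
theorem CoversSofic.retract {G H : Type} [Group G] [Group H] (i : H →* G) (r : G →* H)
    (hri : ∀ x, r (i x) = x) (h : CoversSofic G) : CoversSofic H := by
  rw [coversSofic_iff] at h ⊢
  intro Γ _ p z D
  let S : Subgroup (Γ × G) := (p.comp (MonoidHom.fst Γ G)).eqLocus (r.comp (MonoidHom.snd Γ G))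
  have hS : ∀ x : Γ × G, x ∈ S ↔ p x.1 = r x.2 := fun x => Iff.rfl
  let q : S →* G := (MonoidHom.snd Γ G).comp S.subtype
  have hz : ((z, 1) : Γ × G) ∈ S := by
    rw [hS]
    change p z = r 1
    rw [D.pz, map_one]
  have h1 : Dbl q ⟨(z, 1), hz⟩ := by
    refine ⟨?_, ?_, ?_⟩
    · intro x
      obtain ⟨γ, hγ⟩ := D.surj (r x)
      exact ⟨⟨(γ, x), hγ⟩, rfl⟩
    · intro h2
      exact D.ne (congrArg (fun x : S => x.1.1) h2)
    · rintro ⟨⟨γ, x⟩, hx⟩
      constructor
      · intro h2
        have h3 : x = 1 := h2
        subst h3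
        have h4 : p γ = 1 := by
          rw [hS] at hx
          change p γ = r 1 at hx
          rw [hx, map_one]
        rcases (D.ker γ).1 h4 with h5 | h5
        · left
          subst h5
          rfl
        · right
          subst h5
          rfl
      · rintro (h2 | h2)
        · exact congrArg (fun x : S => x.1.2) h2
        · exact congrArg (fun x : S => x.1.2) h2
  let j : Γ →* S := ((MonoidHom.id Γ).prod (i.comp p)).codRestrict S fun γ => (hri (p γ)).symm
  refine isSofic_of_injective j ?_ (h _ q _ h1)
  intro a b hab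
  exact congrArg (fun x : S => x.1.1) hab

/-- The class consists of sofic groups. -/
theorem CoversSofic.isSofic {G : Type} [Group G] (h : CoversSofic G) : IsSofic G := by
  rw [coversSofic_iff] at h
  have h1 : Dbl (MonoidHom.fst G (Multiplicative (ZMod 2))) (1, Multiplicative.ofAdd 1) := by
    refine ⟨?_, ?_, ?_⟩
    · intro x
      exact ⟨(x, 1), rfl⟩
    · intro h2
      have h3 : (Multiplicative.ofAdd 1 : Multiplicative (ZMod 2)) = 1 := congrArg Prod.snd h2
      exact absurd h3 (by decide)
    · rintro ⟨x, t⟩
      have h3 : ∀ t : Multiplicative (ZMod 2), t = 1 ∨ t = Multiplicative.ofAdd 1 := by decide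
      constructor
      · intro h2
        have h4 : x = 1 := h2
        subst h4
        rcases h3 t with h5 | h5
        · left
          rw [h5]
          rfl
        · right
          rw [h5]
      · rintro (h2 | h2)
        · exact congrArg Prod.fst h2
        · exact congrArg Prod.fst h2
  exact isSofic_of_injective (MonoidHom.inl G _) (fun a b hab => congrArg Prod.fst hab)
    (h _ _ _ h1)

theorem gp_class {V : Type} (Δ : SimpleGraph V) (A : V → Type) [∀ v, Group (A v)] :
    CoversSofic (GP Δ A) ↔ IsSofic (GP Δ A) ∧ ∀ v, CoversSofic (A v) := by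
  classical
  constructor
  · intro h
    refine ⟨h.isSofic, fun v => ?_⟩
    refine h.retract (vtx Δ A v) ((Pi.evalMonoidHom A v).comp (GP.R Δ A)) ?_
    intro a
    change GP.R Δ A (vtx Δ A v a) v = a
    rw [GP.R_vtx, Pi.mulSingle_eq_same]
  · rintro ⟨h1, h2⟩
    rw [coversSofic_iff]
    intro Γ _ p z D
    exact gp_main D h1 fun v => (h2 v).isSofic_comap D _ (GP.vtx_injective v)

end Pool.Agent.H96.DC
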