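import Mathlib
import Pool.Agent.H96.DC.GPCls

set_option autoImplicit false

/-! Extensions of graph products: the theorem. -/

namespace Pool.Agent.H96.DC

open Pool.Agent.Helper70.Sofic

theorem gp_one (V : Type) (Δ : SimpleGraph V) (A : V → Type) [∀ v, Group (A v)] :
    (∀ (Γ : Type) [Group Γ] (N : Subgroup Γ) [N.Normal], Nat.card N = 2 →
      ∀ e : Γ ⧸ N ≃* GP Δ A,
        (IsSofic Γ ↔ IsSofic (GP Δ A) ∧ ∀ v, IsSofic ((vtx Δ A v).range.comap (quoMap e)))) ∧
    (CoversSofic (GP Δ A) ↔ IsSofic (GP Δ A) ∧ ∀ v, CoversSofic (A v)) := by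
  refine ⟨?_, gp_class Δ A⟩
  intro Γ _ N _ hN e
  obtain ⟨z, D⟩ := dbl_of_card hN e
  constructor
  · intro h
    exact ⟨quot_isSofic D h, fun v =>
      isSofic_of_injective (Subgroup.subtype _) (Subgroup.subtype_injective _) h⟩
  · rintro ⟨h1, h2⟩
    exact gp_main D h1 h2

end Pool.Agent.H96.DC
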