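import Mathlib
import Pool.Agent.H96.DC.GPOne

set_option autoImplicit false

/-! Extensions of graph products: the form with the universal property. -/

namespace Pool.Agent.H96.DC

open Pool.Agent.Helper70.Sofic

section
variable {V : Type} {Δ : SimpleGraph V} {A : V → Type} [∀ v, Group (A v)] {P : Type} [Group P]

/-- A group with the universal property is isomorphic to the graph product. -/
theorem exists_equiv (ι : ∀ v, A v →* P)
    (hc : ∀ v w, Δ.Adj v w → ∀ a b, Commute (ι v a) (ι w b))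
    (hu : ∀ (H : Type) [Group H] (f : ∀ v, A v →* H),
      (∀ v w, Δ.Adj v w → ∀ a b, Commute (f v a) (f w b)) → ∃! F : P →* H, ∀ v, F.comp (ι v) = f v) :
    ∃ E : P ≃* GP Δ A, ∀ v a, E (ι v a) = vtx Δ A v a := by
  obtain ⟨F, hF, -⟩ := hu (GP Δ A) (vtx Δ A) (fun v w h a b => GP.vtx_comm h a b)
  have hF' : ∀ v a, F (ι v a) = vtx Δ A v a := fun v a => DFunLike.congr_fun (hF v) a
  let G : GP Δ A →* P := GP.lift ι (fun v w a b h => hc v w h a b)
  have hG : ∀ v a, G (vtx Δ A v a) = ι v a := fun v a => GP.lift_vtx _ _ v a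
  have h1 : G.comp F = MonoidHom.id P := by
    obtain ⟨K, -, hK⟩ := hu P ι hc
    rw [hK (G.comp F) fun v => MonoidHom.ext fun a => ?_, hK (MonoidHom.id P) fun v => rfl]
    change G (F (ι v a)) = ι v a
    rw [hF', hG]
  have h2 : F.comp G = MonoidHom.id (GP Δ A) := by
    apply GP.hom_ext
    intro v a
    change F (G (vtx Δ A v a)) = vtx Δ A v a
    rw [hG, hF']
  exact ⟨MonoidHom.toMulEquiv F G h1 h2, hF'⟩

end

theorem covers_iff_hom (Q : Type) [Group Q] :
    CoversSofic Q ↔ ∀ (Γ : Type) [Group Γ] (π : Γ →* Q), Function.Surjective π →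
      Nat.card π.ker = 2 → IsSofic Γ := by
  constructor
  · intro h Γ _ π hπ hk
    exact h Γ π.ker hk ⟨QuotientGroup.quotientKerEquivOfSurjective π hπ⟩
  · rintro h Γ _ N _ hN ⟨e⟩
    have h1 : (quoMap e).ker = N := by
      ext x
      change e (QuotientGroup.mk' N x) = 1 ↔ x ∈ N
      rw [EmbeddingLike.map_eq_one_iff]
      exact QuotientGroup.eq_one_iff x
    refine h Γ (quoMap e) ?_ ?_
    · intro y
      obtain ⟨x, hx⟩ := QuotientGroup.mk'_surjective N (e.symm y)
      refine ⟨x, ?_⟩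
      change e (QuotientGroup.mk' N x) = y
      rw [hx, e.apply_symm_apply]
    · rw [h1]
      exact hN

theorem covers_congr {P Q : Type} [Group P] [Group Q] (E : P ≃* Q) (h : CoversSofic P) :
    CoversSofic Q := by
  rintro Γ _ N _ hN ⟨e⟩
  exact h Γ N hN ⟨e.trans E.symm⟩

theorem gp_univ (V : Type) (Δ : SimpleGraph V) (A : V → Type) [∀ v, Group (A v)] (P : Type)
    [Group P] (ι : ∀ v, A v →* P)
    (hc : ∀ v w, Δ.Adj v w → ∀ a b, Commute (ι v a) (ι w b))
    (hu : ∀ (H : Type) [Group H] (f : ∀ v, A v →* H),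
      (∀ v w, Δ.Adj v w → ∀ a b, Commute (f v a) (f w b)) →
        ∃! F : P →* H, ∀ v, F.comp (ι v) = f v) :
    (∀ (Γ : Type) [Group Γ] (π : Γ →* P), Function.Surjective π → Nat.card π.ker = 2 →
      (IsSofic Γ ↔ IsSofic P ∧ ∀ v, IsSofic ((ι v).range.comap π))) ∧
    ((∀ (Γ : Type) [Group Γ] (π : Γ →* P), Function.Surjective π → Nat.card π.ker = 2 →
      IsSofic Γ) ↔ IsSofic P ∧
        ∀ v, ∀ (Γ : Type) [Group Γ] (π : Γ →* A v), Function.Surjective π →
          Nat.card π.ker = 2 → IsSofic Γ) := by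
  obtain ⟨E, hE⟩ := exists_equiv ι hc hu
  obtain ⟨g1, g2⟩ := gp_one V Δ A
  have hP : IsSofic (GP Δ A) ↔ IsSofic P :=
    ⟨fun h => isSofic_of_injective (E : P →* GP Δ A) E.injective h,
      fun h => isSofic_of_injective (E.symm : GP Δ A →* P) E.symm.injective h⟩
  refine ⟨?_, ?_⟩
  · intro Γ _ π hπ hk
    have h1 := g1 Γ π.ker hk ((QuotientGroup.quotientKerEquivOfSurjective π hπ).trans E)
    have h2 : ∀ v, (vtx Δ A v).range.comap
        (quoMap ((QuotientGroup.quotientKerEquivOfSurjective π hπ).trans E)) =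
        (ι v).range.comap π := by
      intro v
      ext x
      constructor
      · rintro ⟨a, ha⟩
        refine ⟨a, ?_⟩
        apply E.injective
        rw [hE, ha]
        rfl
      · rintro ⟨a, ha⟩
        refine ⟨a, ?_⟩
        rw [← hE, ha]
        rfl
    rw [h1, hP]
    refine and_congr_right fun _ => forall_congr' fun v => ?_
    rw [h2 v]
  · rw [← covers_iff_hom P]
    have h3 : CoversSofic P ↔ CoversSofic (GP Δ A) :=
      ⟨fun h => covers_congr E h, fun h => covers_congr E.symm h⟩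
    rw [h3, g2, hP]
    simp only [covers_iff_hom]

end Pool.Agent.H96.DC
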