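import Pool.Agent.H96.DC.Prod

set_option autoImplicit false

/-!
# Labels in a sofic approximation of `B`
-/

namespace Pool.Agent.H96.DC

open Equiv Finset

open scoped Pointwise

section
variable {B V : Type} [Group B] (σ : B → Perm V)

/-- `σ` is multiplicative and free on `M` at the point `w`. -/
def Bas (M : Finset B) (w : V) : Prop :=
  (∀ g ∈ M, ∀ h ∈ M, σ (g * h) w = σ g (σ h w)) ∧ ∀ g ∈ M, g ≠ 1 → σ g w ≠ w

/-- good points -/
def Good (M K : Finset B) (v : V) : Prop :=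
  Bas σ M v ∧ ∀ d ∈ K, Bas σ M ((σ d)⁻¹ v)

open Classical in
/-- the label of `w` seen from `v` -/
noncomputable def lab (K : Finset B) (v w : V) : Option B :=
  if h : ∃ d ∈ K, σ d w = v then some h.choose else none

theorem lab_some {K : Finset B} {v w : V} {d : B} (h : lab σ K v w = some d) :
    d ∈ K ∧ σ d w = v := by
  classical
  rw [lab] at h
  by_cases h1 : ∃ d ∈ K, σ d w = v
  · rw [dif_pos h1] at h
    have h2 := h1.choose_spec
    rw [Option.some.inj h] at h2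
    exact h2
  · rw [dif_neg h1] at h
    exact absurd h (by simp)

theorem lab_winj {K : Finset B} {v w w' : V} {d : B} (h : lab σ K v w = some d)
    (h' : lab σ K v w' = some d) : w = w' := by
  have h1 := (lab_some σ h).2
  have h2 := (lab_some σ h').2
  exact (σ d).injective (h1.trans h2.symm)

variable [DecidableEq B] {S : Finset B} (hS1 : (1 : B) ∈ S) (hSi : ∀ x ∈ S, x⁻¹ ∈ S)

include hS1 in
theorem pow_sub {m n : ℕ} (h : m ≤ n) : S ^ m ⊆ S ^ n :=
  Finset.pow_subset_pow_right hS1 h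

include hSi in
theorem pow_inv_mem {n : ℕ} {x : B} (hx : x ∈ S ^ n) : x⁻¹ ∈ S ^ n := by
  have h1 : S⁻¹ = S := by
    ext y
    rw [Finset.mem_inv']
    constructor
    · intro h
      have := hSi _ h
      rwa [inv_inv] at this
    · exact hSi y
  have h2 : x⁻¹ ∈ (S ^ n)⁻¹ := Finset.inv_mem_inv hx
  rwa [← inv_pow, h1] at h2

theorem pow_mul_mem {m n : ℕ} {x y : B} (hx : x ∈ S ^ m) (hy : y ∈ S ^ n) :
    x * y ∈ S ^ (m + n) := by
  rw [pow_add]
  exact Finset.mul_mem_mul hx hy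

include hS1 hSi

theorem bas_one {w : V} (hw : Bas σ (S ^ 12) w) : σ 1 w = w := by
  have h1 : (1 : B) ∈ S ^ 12 := by
    have h2 : S ^ 0 ⊆ S ^ 12 := pow_sub hS1 (by norm_num)
    exact h2 (by simp)
  have h3 := hw.1 1 h1 1 h1
  rw [mul_one] at h3
  exact ((σ 1).injective h3).symm

theorem bas_inj {w : V} (hw : Bas σ (S ^ 12) w) {g h : B} (hg : g ∈ S ^ 6) (hh : h ∈ S ^ 6)
    (e : σ g w = σ h w) : g = h := by
  have hhi := pow_inv_mem hSi hh
  have h6 : S ^ 6 ⊆ S ^ 12 := pow_sub hS1 (by norm_num)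
  have h1 := hw.1 _ (h6 hhi) _ (h6 hg)
  have h2 := hw.1 _ (h6 hhi) _ (h6 hh)
  rw [inv_mul_cancel, bas_one σ hS1 hSi hw, ← e, ← h1] at h2
  by_contra hne
  refine hw.2 (h⁻¹ * g) (pow_mul_mem hhi hg) ?_ h2.symm
  intro h3
  exact hne (inv_mul_eq_one.1 h3).symm

theorem bas_of_good {v w : V} (hv : Good σ (S ^ 12) (S ^ 2) v) {d : B} (hd : d ∈ S ^ 2)
    (e : σ d w = v) : Bas σ (S ^ 12) w := by
  have h1 := hv.2 d hd
  have h2 : (σ d)⁻¹ v = w := by
    rw [← e]
    exact (σ d).symm_apply_apply w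
  rwa [h2] at h1

theorem lab_eq {v w : V} (hv : Good σ (S ^ 12) (S ^ 2) v) {d : B} (hd : d ∈ S ^ 2)
    (e : σ d w = v) : lab σ (S ^ 2) v w = some d := by
  classical
  have h1 : ∃ d ∈ S ^ 2, σ d w = v := ⟨d, hd, e⟩
  rw [lab, dif_pos h1]
  congr 1
  have h2 := h1.choose_spec
  have h26 : S ^ 2 ⊆ S ^ 6 := pow_sub hS1 (by norm_num)
  exact bas_inj σ hS1 hSi (bas_of_good σ hS1 hSi hv hd e) (h26 h2.1) (h26 hd)
    (h2.2.trans e.symm)

/-- the relative position of two labelled points -/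
theorem lab_cross {v w w' : V} (hv : Good σ (S ^ 12) (S ^ 2) v) {d d' : B}
    (h : lab σ (S ^ 2) v w = some d) (h' : lab σ (S ^ 2) v w' = some d') (hne : w ≠ w')
    (c : B) (hc : c ∈ S ^ 4) : (c ≠ 1 ∧ σ c w = w') ↔ c = d'⁻¹ * d := by
  obtain ⟨hd, e⟩ := lab_some σ h
  obtain ⟨hd', e'⟩ := lab_some σ h'
  have hw := bas_of_good σ hS1 hSi hv hd e
  have h2 : S ^ 2 ⊆ S ^ 12 := pow_sub hS1 (by norm_num)
  have h4 : S ^ 4 ⊆ S ^ 12 := pow_sub hS1 (by norm_num)
  have h6 : S ^ 2 ⊆ S ^ 6 := pow_sub hS1 (by norm_num)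
  constructor
  · rintro ⟨_, h3⟩
    have h5 := hw.1 d' (h2 hd') c (h4 hc)
    rw [h3, e', ← e] at h5
    have h7 := bas_inj σ hS1 hSi hw (pow_mul_mem hd' hc) (h6 hd) h5
    rw [← h7]
    group
  · rintro rfl
    have h3 : d' ≠ d := by
      rintro rfl
      exact hne (lab_winj σ h h')
    refine ⟨fun h5 => h3 (inv_mul_eq_one.1 h5), ?_⟩
    have h5 := hw.1 d' (h2 hd') _ (h4 hc)
    rw [mul_inv_cancel_left, e, ← e'] at h5
    exact ((σ d').injective h5).symm

/-- labels are equivariant -/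
theorem lab_equiv {A : Type} [One A] {v w : V} {b : B} (hb : b ∈ S)
    (hv : Good σ (S ^ 12) (S ^ 2) v) (hbv : Good σ (S ^ 12) (S ^ 2) (σ b v)) (f : B → A)
    (hf : ∀ d, f d ≠ 1 → d ∈ S) :
    (∃ d, lab σ (S ^ 2) v w = some d ∧ lab σ (S ^ 2) (σ b v) w = some (b * d)) ∨
      ((∀ d, lab σ (S ^ 2) v w = some d → f d = 1) ∧
        ∀ e, lab σ (S ^ 2) (σ b v) w = some e → f (b⁻¹ * e) = 1) := by
  have h1 : S ⊆ S ^ 2 := by
    have := pow_sub hS1 (m := 1) (n := 2) (by norm_num)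
    rwa [pow_one] at this
  have h1' : S ⊆ S ^ 12 := by
    have := pow_sub hS1 (m := 1) (n := 12) (by norm_num)
    rwa [pow_one] at this
  have hmul : ∀ d ∈ S, b * d ∈ S ^ 2 := by
    intro d hd
    rw [pow_two]
    exact Finset.mul_mem_mul hb hd
  by_cases hex : ∃ d, f d ≠ 1 ∧ σ d w = v
  · obtain ⟨d, hfd, e⟩ := hex
    have hd := hf d hfd
    left
    refine ⟨d, lab_eq σ hS1 hSi hv (h1 hd) e, lab_eq σ hS1 hSi hbv (hmul d hd) ?_⟩
    have hw := bas_of_good σ hS1 hSi hv (h1 hd) e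
    rw [hw.1 b (h1' hb) d (h1' hd), e]
  · right
    constructor
    · intro d hd
      by_contra h2
      exact hex ⟨d, h2, (lab_some σ hd).2⟩
    · intro e he
      by_contra h2
      obtain ⟨heK, h3⟩ := lab_some σ he
      have hdS := hf _ h2
      refine hex ⟨b⁻¹ * e, h2, ?_⟩
      have hw := bas_of_good σ hS1 hSi hbv heK h3
      have h4 := hw.1 b (h1' hb) (b⁻¹ * e) (h1' hdS)
      rw [mul_inv_cancel_left, h3] at h4
      exact ((σ b).injective h4).symm

end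

end Pool.Agent.H96.DC
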