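import Pool.Agent.H96.DC.WrM

set_option autoImplicit false

/-!
# Double covers of restricted wreath products
-/

namespace Pool.Agent.H96.DC

open Pool.Agent.Helper70.Sofic Equiv Finset

open scoped Pointwise

theorem lamp_injective (A B : Type) [Group A] [Group B] [DecidableEq B] :
    Function.Injective (lamp A B) := by
  intro a a' h
  have h1 : ((lamp A B a : RegularWreathProduct A B)).left 1 =
      ((lamp A B a' : RegularWreathProduct A B)).left 1 := by rw [h]
  change (if (1 : B) = 1 then a else 1) = (if (1 : B) = 1 then a' else 1) at h1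
  rwa [if_pos rfl, if_pos rfl] at h1

theorem base_injective (A B : Type) [Group A] [Group B] : Function.Injective (base A B) := by
  intro b b' h
  have h1 : ((base A B b : RegularWreathProduct A B)).right =
      ((base A B b' : RegularWreathProduct A B)).right := by rw [h]
  exact h1

theorem lf_shift {Γ A B : Type} [Group Γ] [Group A] [Group B] [DecidableEq B]
    {p : Γ →* RWr A B} {z : Γ} {sA : A → Γ} {sB : B → Γ} (H : Sec p z sA sB) (γ : Γ) :
    lf p (γ * (sB (rt p γ))⁻¹) = lf p γ ∧ rt p (γ * (sB (rt p γ))⁻¹) = 1 := by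
  constructor
  · funext x
    rw [lf_mul, lf_inv, H.lfB, inv_one, mul_one]
  · rw [rt_mul, rt_inv, H.rtB, mul_inv_cancel]

theorem wr_main {Γ A B : Type} [Group Γ] [Group A] [Group B] [DecidableEq B]
    {p : Γ →* RWr A B} {z : Γ} (D : Dbl p z) (hA : IsSofic ((lamp A B).range.comap p))
    (hB : IsSofic ((base A B).range.comap p)) : IsSofic Γ := by
  classical
  obtain ⟨sA, hsA, hsA1, hTA, hA'⟩ := exists_lift D (lamp A B) (lamp_injective A B) hA
  obtain ⟨sB, hsB, hsB1, hTB, hB'⟩ := exists_lift D (base A B) (base_injective A B) hB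
  have H : Sec p z sA sB := ⟨D, hsA, hsB, hsA1, hsB1⟩
  apply comb
  intro F ε hε
  let S0 : Finset B := {1} ∪ (F.image (rt p) ∪ F.biUnion (fun γ => (lf_finite p γ).toFinset))
  let S : Finset B := S0 ∪ S0.image (fun x => x⁻¹)
  have hS1 : (1 : B) ∈ S := by simp [S, S0]
  have hSi : ∀ x ∈ S, x⁻¹ ∈ S := by
    intro x hx
    rcases Finset.mem_union.1 hx with h | h
    · exact Finset.mem_union_right _ (Finset.mem_image_of_mem _ h)
    · obtain ⟨y, hy, rfl⟩ := Finset.mem_image.1 h
      rw [inv_inv]
      exact Finset.mem_union_left _ hy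
  have hrt : ∀ γ ∈ F, rt p γ ∈ S := fun γ hγ => Finset.mem_union_left _
    (Finset.mem_union_right _ (Finset.mem_union_left _ (Finset.mem_image_of_mem _ hγ)))
  have hlf : ∀ γ ∈ F, ∀ d, lf p γ d ≠ 1 → d ∈ S := fun γ hγ d hd => Finset.mem_union_left _
    (Finset.mem_union_right _ (Finset.mem_union_right _ (Finset.mem_biUnion.2 ⟨γ, hγ, by
      rw [Set.Finite.mem_toFinset]
      exact hd⟩)))
  have hS2 : S ⊆ S ^ 2 := by
    have := pow_sub hS1 (m := 1) (n := 2) (by norm_num)
    rwa [pow_one] at this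
  have hS12 : S ⊆ S ^ 12 := by
    have := pow_sub hS1 (m := 1) (n := 12) (by norm_num)
    rwa [pow_one] at this
  let K : ℝ := (1 + (S ^ 2).card) * (1 + (S ^ 2).card)
  have hK : 0 < K := by positivity
  obtain ⟨V, _, _, σ, u, Bad0, hBad0, h0⟩ := striv_of hB' hTB (S ^ 12) (ε / K) (by positivity)
  have hbas : ∀ x, x ∉ Bad0 → Bas σ (S ^ 12) x := fun x hx =>
    ⟨fun g hg h hh => ((h0 x hx).1 g hg h hh).1, (h0 x hx).2⟩
  obtain ⟨Bad1, hBad1, h1⟩ := exists_closure (S ^ 2) (fun d => (σ d)⁻¹) Bad0
  have hgood : ∀ x, x ∉ Bad1 → Good σ (S ^ 12) (S ^ 2) x := fun x hx =>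
    ⟨hbas x (h1 x hx).1, fun d hd => hbas _ ((h1 x hx).2 d hd)⟩
  obtain ⟨Bad2, hBad2, h2⟩ := exists_closure (S ^ 2) σ Bad1
  refine ⟨V, V → A, inferInstance, inferInstance, inferInstance, OV σ (S ^ 4) sA sB,
    fun γ => σ (rt p γ), fun γ v => io σ (S ^ 2) (lf p γ) (σ (rt p γ) v),
    fun γ v => dif (γ * (sB (rt p γ))⁻¹) (sp σ (S ^ 2) sA sB (lf p γ) (σ (rt p γ) v)) +
      u (rt p γ) v, Bad2, isSofic_pi hA', H.triv_OV σ _ hTA, H.OV_one σ _, ?_, ?_⟩
  · have h3 : (Bad2.card : ℝ) ≤ K * Bad0.card := by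
      refine hBad2.trans ?_
      simp only [K]
      rw [mul_assoc]
      exact mul_le_mul_of_nonneg_left hBad1 (by positivity)
    refine h3.trans ((mul_le_mul_of_nonneg_left hBad0 hK.le).trans (le_of_eq ?_))
    field_simp
  · intro v hv
    obtain ⟨hv1, hv2⟩ := h2 v hv
    have hgv := hgood v hv1
    constructor
    · intro g hg h hh
      have hbS := hrt g hg
      have hb'S := hrt h hh
      have hbb : rt p g * rt p h ∈ S ^ 2 := by
        rw [pow_two]
        exact Finset.mul_mem_mul hbS hb'S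
      have hσ : σ (rt p g * rt p h) v = σ (rt p g) (σ (rt p h) v) :=
        hgv.1.1 _ (hS12 hbS) _ (hS12 hb'S)
      have hrgh : rt p (g * h) = rt p g * rt p h := rt_mul p g h
      have hgv' := hgood _ (hv2 _ (hS2 hb'S))
      have hgv'' := hgood _ (hv2 _ hbb)
      rw [hσ] at hgv''
      have hlgh : lf p (g * h) = fun x => lf p g x * lf p h ((rt p g)⁻¹ * x) := by
        funext x
        exact lf_mul p g h x
      have hio : io σ (S ^ 2) (fun x => lf p h ((rt p g)⁻¹ * x)) (σ (rt p g) (σ (rt p h) v)) =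
          io σ (S ^ 2) (lf p h) (σ (rt p h) v) := by
        funext w
        exact H.io_equiv σ hS1 hSi hbS hgv' hgv'' (lf p h) (hlf h hh) w
      refine ⟨?_, ?_, ?_⟩
      · change σ (rt p (g * h)) v = σ (rt p g) (σ (rt p h) v)
        rw [hrgh, hσ]
      · change io σ (S ^ 2) (lf p (g * h)) (σ (rt p (g * h)) v) =
          io σ (S ^ 2) (lf p g) (σ (rt p g) (σ (rt p h) v)) *
            io σ (S ^ 2) (lf p h) (σ (rt p h) v)
        rw [hrgh, hσ, hlgh, ← hio]
        funext w
        exact io_mul σ (S ^ 2) (lf p g) (fun x => lf p h ((rt p g)⁻¹ * x)) _ w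
      · beta_reduce
        rw [hrgh, hσ]
        have hsup1 : ∀ d, lf p g d ≠ 1 → d ∈ S ^ 2 := fun d hd => hS2 (hlf g hg d hd)
        have hsup2 : ∀ d, lf p h d ≠ 1 → d ∈ S ^ 2 := fun d hd => hS2 (hlf h hh d hd)
        obtain ⟨m1, m2⟩ := lf_shift H g
        obtain ⟨m1', m2'⟩ := lf_shift H h
        have e1 : g * (sB (rt p g))⁻¹ = zp z (dif (g * (sB (rt p g))⁻¹)
            (sp σ (S ^ 2) sA sB (lf p g) (σ (rt p g) (σ (rt p h) v)))) *
            sp σ (S ^ 2) sA sB (lf p g) (σ (rt p g) (σ (rt p h) v)) := by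
          apply D.dif_spec
          apply p_eq
          · rw [m1, H.lf_sp σ hS1 hSi hgv'' _ hsup1]
          · rw [m2, H.rt_sp σ]
        have e2 : h * (sB (rt p h))⁻¹ = zp z (dif (h * (sB (rt p h))⁻¹)
            (sp σ (S ^ 2) sA sB (lf p h) (σ (rt p h) v))) *
            sp σ (S ^ 2) sA sB (lf p h) (σ (rt p h) v) := by
          apply D.dif_spec
          apply p_eq
          · rw [m1', H.lf_sp σ hS1 hSi hgv' _ hsup2]
          · rw [m2', H.rt_sp σ]
        set δ1 := dif (g * (sB (rt p g))⁻¹)
            (sp σ (S ^ 2) sA sB (lf p g) (σ (rt p g) (σ (rt p h) v))) with hδ1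
        set δ2 := dif (h * (sB (rt p h))⁻¹)
            (sp σ (S ^ 2) sA sB (lf p h) (σ (rt p h) v)) with hδ2
        have e3 : sB (rt p g) * sB (rt p h) * (sB (rt p g * rt p h))⁻¹ =
            zp z (cg sB (rt p g) (rt p h)) := by
          rw [H.specB, mul_inv_cancel_right]
        have e4 := H.sp_conj σ hS1 hSi hbS hgv' hgv'' (lf p h) (hlf h hh)
        have e5 := H.sp_mul σ hS1 hSi hgv'' (lf p g) (fun x => lf p h ((rt p g)⁻¹ * x))
        rw [hio] at e5
        set P1 := sp σ (S ^ 2) sA sB (lf p g) (σ (rt p g) (σ (rt p h) v))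
        set P2 := sp σ (S ^ 2) sA sB (lf p h) (σ (rt p h) v)
        set P3 := sp σ (S ^ 2) sA sB (fun x => lf p h ((rt p g)⁻¹ * x))
          (σ (rt p g) (σ (rt p h) v))
        have e6 : dif (g * h * (sB (rt p g * rt p h))⁻¹)
            (sp σ (S ^ 2) sA sB (lf p (g * h)) (σ (rt p g) (σ (rt p h) v))) =
            δ1 + δ2 + cg sB (rt p g) (rt p h) +
              OV σ (S ^ 4) sA sB (io σ (S ^ 2) (lf p g) (σ (rt p g) (σ (rt p h) v)))
                (io σ (S ^ 2) (lf p h) (σ (rt p h) v)) := by
          apply D.dif_unique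
          rw [hlgh]
          calc g * h * (sB (rt p g * rt p h))⁻¹
              = (g * (sB (rt p g))⁻¹) *
                (sB (rt p g) * (h * (sB (rt p h))⁻¹) * (sB (rt p g))⁻¹) *
                (sB (rt p g) * sB (rt p h) * (sB (rt p g * rt p h))⁻¹) := by group
            _ = (zp z δ1 * P1) * (sB (rt p g) * (zp z δ2 * P2) * (sB (rt p g))⁻¹) *
                zp z (cg sB (rt p g) (rt p h)) := by rw [e3, ← e1, ← e2]
            _ = (zp z δ1 * P1) * (zp z δ2 * P3) * zp z (cg sB (rt p g) (rt p h)) := by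
                rw [H.conj_zp, e4]
            _ = zp z δ1 * zp z δ2 * zp z (cg sB (rt p g) (rt p h)) * (P1 * P3) := by
                rw [mul_assoc (zp z δ1) P1, ← mul_assoc P1, ← D.zp_comm δ2 P1,
                  ← D.zp_comm (cg sB (rt p g) (rt p h))]
                rw [← D.zp_add, ← D.zp_add]
                rw [mul_assoc (zp z δ2) P1 P3, ← mul_assoc (zp z δ1), ← D.zp_add,
                  ← mul_assoc (zp z (cg sB (rt p g) (rt p h))), ← D.zp_add,
                  add_comm (cg sB (rt p g) (rt p h))]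
            _ = _ := by
                rw [e5, ← mul_assoc, ← D.zp_add, ← D.zp_add, ← D.zp_add]
        rw [e6]
        have e7 := ((h0 v (h1 v hv1).1).1 _ (hS12 hbS) _ (hS12 hb'S)).2
        change u (rt p g * rt p h) v + cg sB (rt p g) (rt p h) = _ at e7
        linear_combination e7
    · intro g hg hg1
      by_cases hr : rt p g = 1
      · by_cases hl : ∃ d, lf p g d ≠ 1
        · right; left
          obtain ⟨d, hd⟩ := hl
          intro h3
          apply hd
          have h4 := congrFun h3 ((σ d)⁻¹ v)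
          change io σ (S ^ 2) (lf p g) (σ (rt p g) v) ((σ d)⁻¹ v) = 1 at h4
          have h5 : σ (rt p g) v = v := by
            rw [hr]
            exact bas_one σ hS1 hSi hgv.1
          rw [h5] at h4
          have h6 : lab σ (S ^ 2) v ((σ d)⁻¹ v) = some d :=
            lab_eq σ hS1 hSi hgv (hS2 (hlf g hg d hd)) ((σ d).apply_symm_apply v)
          rw [io_some h6] at h4
          exact h4
        · right; right
          push Not at hl
          have hl' : lf p g = fun _ => 1 := funext hl
          have hpg : p g = 1 := by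
            rw [← map_one p]
            apply p_eq
            · funext x
              rw [hl x, lf_one]
            · rw [hr, rt_one]
          have hgz : g = z := by
            rcases (D.ker g).1 hpg with h3 | h3
            · exact absurd h3 hg1
            · exact h3
          have h5 : σ 1 v = v := bas_one σ hS1 hSi hgv.1
          have h6 := ((h0 v (h1 v hv1).1).1 _ (hS12 hS1) _ (hS12 hS1)).2
          change u (1 * 1) v + cg sB 1 1 = _ at h6
          rw [mul_one, H.cgB_one, h5, add_zero] at h6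
          have h7 : u 1 v = 0 := by
            have h8 : u 1 v + u 1 v = 0 := CharTwo.add_self_eq_zero _
            rw [h6, h8]
          change dif (g * (sB (rt p g))⁻¹) (sp σ (S ^ 2) sA sB (lf p g) (σ (rt p g) v)) +
            u (rt p g) v ≠ 0
          rw [hr, hl', H.sp_one σ, hsB1, inv_one, mul_one, h7, add_zero, dif, if_neg hg1]
          decide
      · left
        exact hgv.1.2 _ (hS12 (hrt g hg)) hr

end Pool.Agent.H96.DC
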