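import Pool.Agent.H96.DC.Comb

set_option autoImplicit false

/-!
# Products
-/

namespace Pool.Agent.H96.DC

open Pool.Agent.Helper70.Sofic Equiv Finset

theorem isSofic_prod {A B : Type} [Group A] [Group B] (hA : IsSofic A) (hB : IsSofic B) :
    IsSofic (A × B) := by
  classical
  apply isSofic_of_sapp
  intro F ε hε
  obtain ⟨X, _, _, σ, BX, hBX, h1⟩ := sapp_of_isSofic hA (F.image Prod.fst) (ε / 2)
    (by positivity)
  obtain ⟨Y, _, _, τ, BY, hBY, h2⟩ := sapp_of_isSofic hB (F.image Prod.snd) (ε / 2)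
    (by positivity)
  obtain ⟨D, hD, hD'⟩ := exists_prod_bad BX BY _ _ hBX hBY
  refine ⟨X × Y, inferInstance, inferInstance, fun g => (σ g.1).prodCongr (τ g.2), D, ?_, ?_⟩
  · have : ε / 2 + ε / 2 = ε := by ring
    rw [this] at hD
    exact hD
  · rintro ⟨x, y⟩ hxy
    obtain ⟨hx, hy⟩ := hD' x y hxy
    constructor
    · intro g hg h hh
      have h3 := (h1 x hx).1 g.1 (Finset.mem_image_of_mem _ hg) h.1 (Finset.mem_image_of_mem _ hh)
      have h4 := (h2 y hy).1 g.2 (Finset.mem_image_of_mem _ hg) h.2 (Finset.mem_image_of_mem _ hh)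
      simp only [Equiv.prodCongr_apply, Prod.map_apply, Prod.fst_mul, Prod.snd_mul, h3, h4]
    · intro g hg hg1 h3
      simp only [Equiv.prodCongr_apply, Prod.map_apply, Prod.mk.injEq] at h3
      by_cases h4 : g.1 = 1
      · have h5 : g.2 ≠ 1 := fun h5 => hg1 (Prod.ext h4 h5)
        exact (h2 y hy).2 g.2 (Finset.mem_image_of_mem _ hg) h5 h3.2
      · exact (h1 x hx).2 g.1 (Finset.mem_image_of_mem _ hg) h4 h3.1

theorem isSofic_of_subsingleton {A : Type} [Group A] [Subsingleton A] : IsSofic A := by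
  apply isSofic_of_sapp
  intro F ε hε
  refine ⟨Unit, inferInstance, inferInstance, fun _ => 1, ∅, ?_, ?_⟩
  · simp only [Finset.card_empty, Nat.cast_zero]
    positivity
  · intro x _
    exact ⟨fun _ _ _ _ => rfl, fun g _ hg1 => absurd (Subsingleton.elim g 1) hg1⟩

theorem isSofic_pi {V A : Type} [Finite V] [Group A] (hA : IsSofic A) : IsSofic (V → A) := by
  have h1 : ∀ n : ℕ, IsSofic (Fin n → A) := by
    intro n
    induction n with
    | zero => exact isSofic_of_subsingleton
    | succ n ih =>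
      let f : (Fin (n + 1) → A) →* A × (Fin n → A) :=
        { toFun := fun g => (g 0, fun i => g i.succ)
          map_one' := rfl
          map_mul' := fun _ _ => rfl }
      refine isSofic_of_injective f ?_ (isSofic_prod hA ih)
      intro g h hgh
      have h2 := congrArg Prod.fst hgh
      have h3 := congrArg Prod.snd hgh
      funext i
      refine Fin.cases h2 (fun j => congrFun h3 j) i
  obtain ⟨n, ⟨e⟩⟩ := Finite.exists_equiv_fin V
  let f : (V → A) →* (Fin n → A) :=
    { toFun := fun g i => g (e.symm i)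
      map_one' := rfl
      map_mul' := fun _ _ => rfl }
  refine isSofic_of_injective f ?_ (h1 n)
  intro g h hgh
  funext v
  have := congrFun hgh (e v)
  change g (e.symm (e v)) = h (e.symm (e v)) at this
  rwa [e.symm_apply_apply] at this

section
variable {Γ A B : Type} [Group Γ] [Group A] [Group B]

/-- The preimage of the kernel of `q`, with its map to `A`. -/
theorem dbl_comap {G : Type} [Group G] {p : Γ →* G} {z : Γ} (D : Dbl p z) (i : A →* G)
    (hi : Function.Injective i) :
    ∃ (S : Subgroup Γ) (q : S →* A) (z' : S), S = i.range.comap p ∧ (∀ x : S, i (q x) = p x) ∧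
      (z' : Γ) = z ∧ Dbl q z' := by
  let S : Subgroup Γ := i.range.comap p
  have h1 : ∀ x : S, ∃ a : A, i a = p x := fun x => x.2
  choose q hq using h1
  let q' : S →* A :=
    { toFun := q
      map_one' := hi (by rw [hq, map_one]; exact map_one p)
      map_mul' := fun x y => hi (by rw [hq, map_mul, hq, hq]; exact map_mul p _ _) }
  have hz : z ∈ S := ⟨1, by rw [map_one, D.pz]⟩
  refine ⟨S, q', ⟨z, hz⟩, rfl, hq, rfl, ?_, ?_, ?_⟩
  · intro a
    obtain ⟨γ, hγ⟩ := D.surj (i a)
    refine ⟨⟨γ, ⟨a, hγ.symm⟩⟩, hi ?_⟩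
    exact (hq _).trans hγ
  · intro h
    exact D.ne (congrArg Subtype.val h)
  · intro x
    have h2 : q' x = 1 ↔ p x = 1 := by
      constructor
      · intro h
        rw [← hq x]
        change i (q' x) = 1
        rw [h, map_one]
      · intro h
        apply hi
        exact (hq x).trans (h.trans (map_one i).symm)
    rw [h2, D.ker]
    constructor
    · rintro (h | h)
      · left; exact Subtype.ext h
      · right; exact Subtype.ext h
    · rintro (h | h)
      · left; rw [h]; rfl
      · right; rw [h]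

/-- A normalised section of a double cover. -/
theorem exists_section {G : Type} [Group G] {p : Γ →* G} {z : Γ} (D : Dbl p z) :
    ∃ s : G → Γ, (∀ g, p (s g) = g) ∧ s 1 = 1 := by
  classical
  obtain ⟨s, hs⟩ := D.surj.hasRightInverse
  refine ⟨fun g => if g = 1 then 1 else s g, ?_, ?_⟩
  · intro g
    by_cases h : g = 1
    · simp [h]
    · simp only [if_neg h]
      exact hs g
  · simp

/-- The section of a subgroup given by `dbl_comap`. -/
theorem exists_lift {G : Type} [Group G] {p : Γ →* G} {z : Γ} (D : Dbl p z) (i : A →* G)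
    (hi : Function.Injective i) (hS : IsSofic (i.range.comap p)) :
    ∃ s : A → Γ, (∀ a, p (s a) = i a) ∧ s 1 = 1 ∧
      Triv A (fun a b => dif (s a * s b) (s (a * b))) ∧ IsSofic A := by
  obtain ⟨S, q, z', rfl, hq, hz', D'⟩ := dbl_comap D i hi
  obtain ⟨s, hs, hs1⟩ := exists_section D'
  refine ⟨fun a => (s a : Γ), ?_, ?_, ?_, quot_isSofic D' hS⟩
  · intro a
    rw [← hq, hs]
  · change (s 1 : Γ) = 1
    rw [hs1]; rfl
  · have h1 := triv_of_isSofic D' hs hS
    have h2 : coch s = fun a b => dif ((s a : Γ) * (s b : Γ)) (s (a * b) : Γ) := by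
      funext a b
      rw [coch, dif, dif]
      congr 1
      apply propext
      rw [← Subtype.coe_inj]
      rfl
    rwa [h2] at h1

end

section
variable {Γ : Type} [Group Γ] {G : Type} [Group G] {p : Γ →* G} {z : Γ}

/-- The commutator exponent of two elements with commuting images. -/
noncomputable def cm (x y : Γ) : ZMod 2 := dif (x * y) (y * x)

theorem cm_spec (D : Dbl p z) {x y : Γ} (h : p x * p y = p y * p x) :
    x * y = zp z (cm x y) * (y * x) :=
  D.dif_spec (by rw [map_mul, map_mul, h])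

theorem cm_unique (D : Dbl p z) {x y : Γ} {a : ZMod 2} (h : x * y = zp z a * (y * x)) :
    cm x y = a := D.dif_unique h

theorem cm_mul_left (D : Dbl p z) {x x' y : Γ} (h : p x * p y = p y * p x)
    (h' : p x' * p y = p y * p x') : cm (x * x') y = cm x y + cm x' y := by
  apply cm_unique D
  rw [mul_assoc, cm_spec D h', ← mul_assoc x, ← D.zp_comm, mul_assoc (zp z _) x, ← mul_assoc x y,
    cm_spec D h, D.zp_add, D.zp_comm (cm x y) (zp z (cm x' y))]
  simp only [mul_assoc]

theorem cm_mul_right (D : Dbl p z) {x y y' : Γ} (h : p x * p y = p y * p x)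
    (h' : p x * p y' = p y' * p x) : cm x (y * y') = cm x y + cm x y' := by
  apply cm_unique D
  rw [← mul_assoc, cm_spec D h, mul_assoc (zp z _), mul_assoc y x, cm_spec D h', ← mul_assoc y,
    ← D.zp_comm, D.zp_add]
  simp only [mul_assoc]

theorem cm_zp_left (D : Dbl p z) (a : ZMod 2) (x y : Γ) (h : p x * p y = p y * p x) :
    cm (zp z a * x) y = cm x y := by
  apply cm_unique D
  rw [mul_assoc, cm_spec D h, ← mul_assoc y, ← D.zp_comm a y, ← mul_assoc, ← D.zp_add,
    add_comm a, D.zp_add]
  simp only [mul_assoc]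

theorem cm_zp_right (D : Dbl p z) (a : ZMod 2) (x y : Γ) (h : p x * p y = p y * p x) :
    cm x (zp z a * y) = cm x y := by
  apply cm_unique D
  rw [← mul_assoc x, ← D.zp_comm a x, mul_assoc, cm_spec D h, ← mul_assoc, ← D.zp_add,
    add_comm a, D.zp_add]
  simp only [mul_assoc]

end

/-- Double covers of direct products. -/
theorem prod_main {Γ A B : Type} [Group Γ] [Group A] [Group B] {p : Γ →* A × B} {z : Γ}
    (D : Dbl p z) (hA : IsSofic ((MonoidHom.inl A B).range.comap p))
    (hB : IsSofic ((MonoidHom.inr A B).range.comap p)) : IsSofic Γ := by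
  obtain ⟨sA, hsA, hsA1, hTA, hA'⟩ := exists_lift D (MonoidHom.inl A B)
    (fun a b h => by simpa using h) hA
  obtain ⟨sB, hsB, hsB1, hTB, hB'⟩ := exists_lift D (MonoidHom.inr A B)
    (fun a b h => by simpa using h) hB
  have hcom : ∀ a b, p (sB b) * p (sA a) = p (sA a) * p (sB b) := by
    intro a b
    rw [hsA, hsB]
    simp
  let s : A × B → Γ := fun g => sA g.1 * sB g.2
  have hs : ∀ g, p (s g) = g := by
    intro g
    change p (sA g.1 * sB g.2) = g
    rw [map_mul, hsA, hsB]
    simp
  have hs1 : s 1 = 1 := by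
    change sA 1 * sB 1 = 1
    rw [hsA1, hsB1, mul_one]
  refine isSofic_of_triv D hs hs1 (isSofic_prod hA' hB') ?_
  have hA2 : ∀ a a', sA a * sA a' = zp z (dif (sA a * sA a') (sA (a * a'))) * sA (a * a') :=
    fun a a' => D.dif_spec (by rw [map_mul, hsA, hsA, hsA, map_mul])
  have hB2 : ∀ b b', sB b * sB b' = zp z (dif (sB b * sB b') (sB (b * b'))) * sB (b * b') :=
    fun a a' => D.dif_spec (by rw [map_mul, hsB, hsB, hsB, map_mul])
  have h1 : coch s = fun g h => dif (sA g.1 * sA h.1) (sA (g.1 * h.1)) +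
      dif (sB g.2 * sB h.2) (sB (g.2 * h.2)) + cm (sB g.2) (sA h.1) := by
    funext g h
    apply D.dif_unique
    change sA g.1 * sB g.2 * (sA h.1 * sB h.2) = _ * (sA (g.1 * h.1) * sB (g.2 * h.2))
    set a := dif (sA g.1 * sA h.1) (sA (g.1 * h.1))
    set b := dif (sB g.2 * sB h.2) (sB (g.2 * h.2))
    set c := cm (sB g.2) (sA h.1)
    calc sA g.1 * sB g.2 * (sA h.1 * sB h.2) = sA g.1 * (sB g.2 * sA h.1) * sB h.2 := by
          simp only [mul_assoc]
      _ = sA g.1 * (zp z c * (sA h.1 * sB g.2)) * sB h.2 := by rw [cm_spec D (hcom _ _)]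
      _ = zp z c * ((sA g.1 * sA h.1) * (sB g.2 * sB h.2)) := by
          rw [← mul_assoc (sA g.1), ← D.zp_comm c (sA g.1)]
          simp only [mul_assoc]
      _ = zp z c * ((zp z a * sA (g.1 * h.1)) * (zp z b * sB (g.2 * h.2))) := by
          rw [← hA2, ← hB2]
      _ = zp z (a + b + c) * (sA (g.1 * h.1) * sB (g.2 * h.2)) := by
          rw [add_comm (a + b) c, D.zp_add, D.zp_add, mul_assoc (zp z a), ← mul_assoc (sA _),
            ← D.zp_comm b (sA _)]
          simp only [mul_assoc]
  rw [h1]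
  refine triv_add (triv_add (triv_comp (MonoidHom.fst A B) hTA)
    (triv_comp (MonoidHom.snd A B) hTB)) ?_
  apply triv_bimul
  · intro g g' h
    have h2 : cm (sB (g.2 * g'.2)) (sA h.1) = cm (sB g.2 * sB g'.2) (sA h.1) := by
      rw [hB2]
      exact (cm_zp_left D _ _ _ (hcom _ _)).symm
    change cm (sB (g.2 * g'.2)) (sA h.1) = _
    rw [h2, cm_mul_left D (hcom _ _) (hcom _ _)]
  · intro g h h'
    have h2 : cm (sB g.2) (sA (h.1 * h'.1)) = cm (sB g.2) (sA h.1 * sA h'.1) := by
      rw [hA2]
      exact (cm_zp_right D _ _ _ (hcom _ _)).symm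
    change cm (sB g.2) (sA (h.1 * h'.1)) = _
    rw [h2, cm_mul_right D (hcom _ _) (hcom _ _)]

end Pool.Agent.H96.DC
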