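import Pool.Agent.H96.DC.Prod

set_option autoImplicit false

/-!
# Twisting a double cover by a cocycle
-/

namespace Pool.Agent.H96.DC

open Pool.Agent.Helper70.Sofic

/-- normalised 2-cocycles with values in `ZMod 2` (trivial action) -/
structure Coc {G : Type} [Group G] (C : G → G → ZMod 2) : Prop where
  coc : ∀ g h k, C g h + C (g * h) k = C g (h * k) + C h k
  one : C 1 1 = 0

namespace Coc

section
variable {G : Type} [Group G] {C C' : G → G → ZMod 2}

theorem one_left (h : Coc C) (g : G) : C 1 g = 0 := by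
  have h1 := h.coc 1 1 g
  rw [one_mul, one_mul, h.one, zero_add] at h1
  have h2 : C 1 g + C 1 g = C 1 g + 0 := by rw [add_zero]; exact h1.symm
  exact add_left_cancel h2

theorem one_right (h : Coc C) (g : G) : C g 1 = 0 := by
  have h1 := h.coc g 1 1
  rw [mul_one, mul_one, h.one] at h1
  exact add_left_cancel h1

theorem inv (h : Coc C) (g : G) : C g⁻¹ g = C g g⁻¹ := by
  have h1 := h.coc g g⁻¹ g
  rw [mul_inv_cancel, inv_mul_cancel, h.one_left, h.one_right, add_zero, zero_add] at h1
  exact h1.symm

theorem add (h : Coc C) (h' : Coc C') : Coc (fun g k => C g k + C' g k) where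
  coc g k l := by linear_combination h.coc g k l + h'.coc g k l
  one := by rw [h.one, h'.one, add_zero]

theorem zero : Coc (fun _ _ : G => (0 : ZMod 2)) where
  coc _ _ _ := rfl
  one := rfl

theorem sum {ι : Type} (S : Finset ι) (D : ι → G → G → ZMod 2) (h : ∀ i ∈ S, Coc (D i)) :
    Coc (fun g k => ∑ i ∈ S, D i g k) := by
  classical
  induction S using Finset.induction_on with
  | empty => simpa using zero
  | insert i S hi ih =>
    have h1 := (h i (Finset.mem_insert_self _ _)).add
      (ih fun j hj => h j (Finset.mem_insert_of_mem hj))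
    simpa only [Finset.sum_insert hi] using h1

theorem comp {H : Type} [Group H] (h : Coc C) (f : H →* G) : Coc (fun g k => C (f g) (f k)) where
  coc g k l := by
    rw [map_mul, map_mul]
    exact h.coc _ _ _
  one := by rw [map_one]; exact h.one

theorem bimul (hl : ∀ g g' h, C (g * g') h = C g h + C g' h)
    (hr : ∀ g h h', C g (h * h') = C g h + C g h') : Coc C where
  coc g k l := by
    rw [hl, hr]
    ring
  one := by
    have h1 := hl 1 1 1
    rw [one_mul] at h1
    have h2 : C 1 1 + C 1 1 = C 1 1 + 0 := by rw [add_zero]; exact h1.symm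
    exact add_left_cancel h2

end

/-- The cochain of a section is a cocycle. -/
theorem of_section {Γ G A : Type} [Group Γ] [Group G] [Group A] {p : Γ →* G} {z : Γ}
    (D : Dbl p z) (i : A →* G) {s : A → Γ} (hs : ∀ a, p (s a) = i a) (hs1 : s 1 = 1) :
    Coc (fun a b => dif (s a * s b) (s (a * b))) where
  coc a b c := by
    have h : ∀ a b, s a * s b = zp z (dif (s a * s b) (s (a * b))) * s (a * b) := fun a b =>
      D.dif_spec (by rw [map_mul, hs, hs, hs, map_mul])
    apply D.zp_inj
    rw [D.zp_add, D.zp_add]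
    have h1 : s a * s b * s c = zp z (dif (s a * s b) (s (a * b))) *
        zp z (dif (s (a * b) * s c) (s (a * b * c))) * s (a * b * c) := by
      conv_lhs => rw [h a b, mul_assoc, h (a * b) c]
      rw [← mul_assoc]
    have h2 : s a * (s b * s c) = zp z (dif (s a * s (b * c)) (s (a * (b * c)))) *
        zp z (dif (s b * s c) (s (b * c))) * s (a * (b * c)) := by
      conv_lhs => rw [h b c, ← mul_assoc, ← D.zp_comm, mul_assoc, h a (b * c)]
      rw [← mul_assoc, ← D.zp_add, ← D.zp_add, add_comm]
    rw [← mul_assoc, h1, mul_assoc a b c] at h2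
    rw [mul_assoc a b c]
    exact mul_right_cancel h2
  one := by
    rw [mul_one, hs1, mul_one, dif, if_pos rfl]

end Coc

section
variable {Γ G : Type} [Group Γ] [Group G] {p : Γ →* G} {z : Γ}

/-- the twisted multiplication -/
def twMul (p : Γ →* G) (z : Γ) (C : G → G → ZMod 2) (a b : Γ) : Γ := zp z (C (p a) (p b)) * (a * b)

theorem p_twMul (D : Dbl p z) (C : G → G → ZMod 2) (a b : Γ) :
    p (twMul p z C a b) = p a * p b := by
  rw [twMul, map_mul, D.p_zp, one_mul, map_mul]

/-- The double cover with the multiplication twisted by `C`. -/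
structure Tw (_ : Dbl p z) {C : G → G → ZMod 2} (_ : Coc C) : Type where
  /-- the element -/
  val : Γ

theorem Tw.ext' {D : Dbl p z} {C : G → G → ZMod 2} {hC : Coc C} {a b : Tw D hC}
    (h : a.val = b.val) : a = b := by
  cases a
  cases b
  cases h
  rfl

noncomputable instance instTw (D : Dbl p z) {C : G → G → ZMod 2} (hC : Coc C) :
    Group (Tw D hC) where
  mul a b := ⟨twMul p z C a.val b.val⟩
  one := ⟨1⟩
  inv a := ⟨zp z (C (p a.val) (p a.val)⁻¹) * a.val⁻¹⟩
  mul_assoc a b c := by
    apply Tw.ext'
    change twMul p z C (twMul p z C a.val b.val) c.val =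
      twMul p z C a.val (twMul p z C b.val c.val)
    have h1 : twMul p z C (twMul p z C a.val b.val) c.val =
        zp z (C (p a.val * p b.val) (p c.val)) *
          (zp z (C (p a.val) (p b.val)) * (a.val * b.val) * c.val) := by
      conv_lhs => rw [twMul, p_twMul D, twMul]
    have h2 : twMul p z C a.val (twMul p z C b.val c.val) =
        zp z (C (p a.val) (p b.val * p c.val)) *
          (a.val * (zp z (C (p b.val) (p c.val)) * (b.val * c.val))) := by
      conv_lhs => rw [twMul, p_twMul D, twMul]
    have h3 := hC.coc (p a.val) (p b.val) (p c.val)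
    rw [h1, h2, ← mul_assoc a.val (zp z _), ← D.zp_comm _ a.val, mul_assoc (zp z _) a.val,
      ← mul_assoc (zp z (C (p a.val) (p b.val * p c.val))), ← D.zp_add, ← h3,
      mul_assoc (zp z (C (p a.val) (p b.val))), ← mul_assoc (zp z _) (zp z _), ← D.zp_add,
      add_comm (C (p a.val * p b.val) (p c.val)), mul_assoc a.val]
  one_mul a := by
    apply Tw.ext'
    change twMul p z C 1 a.val = a.val
    rw [twMul, map_one, hC.one_left, D.zp_zero, one_mul, one_mul]
  mul_one a := by
    apply Tw.ext'
    change twMul p z C a.val 1 = a.val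
    rw [twMul, map_one, hC.one_right, D.zp_zero, one_mul, mul_one]
  inv_mul_cancel a := by
    apply Tw.ext'
    change twMul p z C (zp z (C (p a.val) (p a.val)⁻¹) * a.val⁻¹) a.val = 1
    rw [twMul, map_mul, D.p_zp, one_mul, map_inv, hC.inv, mul_assoc, inv_mul_cancel, mul_one,
      ← D.zp_add]
    have h1 : ∀ x : ZMod 2, x + x = 0 := by decide
    rw [h1, D.zp_zero]

theorem tw_mul (D : Dbl p z) {C : G → G → ZMod 2} (hC : Coc C) (a b : Tw D hC) :
    (a * b).val = zp z (C (p a.val) (p b.val)) * (a.val * b.val) := rfl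

theorem tw_one (D : Dbl p z) {C : G → G → ZMod 2} (hC : Coc C) :
    (1 : Tw D hC).val = 1 := rfl

/-- If the twist of a double cover of `G` by `C` splits, the cover is sofic as soon as `G` is
sofic and `C` becomes trivial along sofic approximations. -/
theorem isSofic_of_twist (D : Dbl p z) {C : G → G → ZMod 2} (hC : Coc C) (Θ : G →* Tw D hC)
    (hΘ : ∀ g, p (Θ g).val = g) (hG : IsSofic G) (hT : Triv G C) : IsSofic Γ := by
  have h1 : coch (fun g => (Θ g).val) = C := by
    funext g h
    apply D.dif_unique
    have h2 : (Θ (g * h)).val = zp z (C g h) * ((Θ g).val * (Θ h).val) := by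
      rw [map_mul, tw_mul, hΘ, hΘ]
    change (Θ g).val * (Θ h).val = zp z (C g h) * (Θ (g * h)).val
    rw [h2, ← mul_assoc, ← D.zp_add]
    have h4 : ∀ x : ZMod 2, x + x = 0 := by decide
    rw [h4, D.zp_zero, one_mul]
  refine isSofic_of_triv D hΘ ?_ hG (by rw [h1]; exact hT)
  change (Θ 1).val = 1
  rw [map_one, tw_one]

end

/-- Triviality depends only on the restrictions to finite sets. -/
theorem triv_local {K : Type} [Group K] {c : K → K → ZMod 2}
    (h : ∀ F : Finset K, ∃ c' : K → K → ZMod 2, Triv K c' ∧ ∀ g ∈ F, ∀ h ∈ F, c g h = c' g h) :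
    Triv K c := by
  intro F ε hε
  obtain ⟨c', hc', heq⟩ := h F
  obtain ⟨X, i1, i2, σ, u, B, hB, h1⟩ := hc' F ε hε
  refine ⟨X, i1, i2, σ, u, B, hB, fun x hx g hg k hk => ?_⟩
  rw [heq g hg k hk]
  exact h1 x hx g hg k hk

end Pool.Agent.H96.DC
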