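import Pool.Agent.Helper70.Sofic.Basic

set_option autoImplicit false

/-!
# Restricted wreath products and double covers: definitions
-/

namespace Pool.Agent.H96.DC

open Pool.Agent.Helper70.Sofic

/-- The restricted regular wreath product, as a subgroup of the unrestricted one: the elements
whose lamp configuration is trivial outside a finite set. -/
def RWr (A B : Type) [Group A] [Group B] : Subgroup (RegularWreathProduct A B) where
  carrier := {x | {b | x.left b ≠ 1}.Finite}
  one_mem' := by
    change {b | (1 : RegularWreathProduct A B).left b ≠ 1}.Finite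
    simp
  mul_mem' := by
    intro x y hx hy
    have h1 : {b | (x * y).left b ≠ 1} ⊆
        {b | x.left b ≠ 1} ∪ (fun b => x.right * b) '' {b | y.left b ≠ 1} := by
      intro b hb
      by_cases h2 : x.left b = 1
      · right
        refine ⟨x.right⁻¹ * b, ?_, mul_inv_cancel_left _ _⟩
        intro h3
        apply hb
        change x.left b * y.left (x.right⁻¹ * b) = 1
        rw [h2, h3, mul_one]
      · left
        exact h2
    exact (hx.union (hy.image _)).subset h1
  inv_mem' := by
    intro x hx
    have h1 : {b | (x⁻¹).left b ≠ 1} ⊆ (fun b => x.right⁻¹ * b) '' {b | x.left b ≠ 1} := by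
      intro b hb
      refine ⟨x.right * b, ?_, inv_mul_cancel_left _ _⟩
      intro h3
      apply hb
      change (x.left (x.right * b))⁻¹ = 1
      rw [h3, inv_one]
    exact (hx.image _).subset h1

section
variable (A B : Type) [Group A] [Group B] [DecidableEq B]

/-- The lamp at the position `1`. -/
def lamp : A →* RWr A B where
  toFun a := ⟨⟨fun x => if x = 1 then a else 1, 1⟩, by
    refine (Set.finite_singleton (1 : B)).subset ?_
    intro b hb
    by_contra h
    exact hb (if_neg h)⟩
  map_one' := by
    apply Subtype.ext
    ext1
    · funext x
      exact ite_self 1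
    · rfl
  map_mul' a a' := by
    apply Subtype.ext
    ext1
    · funext b
      change (if b = 1 then a * a' else 1) =
        (if b = 1 then a else 1) * (if 1⁻¹ * b = 1 then a' else 1)
      rw [inv_one, one_mul]
      by_cases h : b = 1
      · simp only [if_pos h]
      · simp only [if_neg h, mul_one]
    · exact (mul_one (1 : B)).symm

/-- The acting group. -/
def base : B →* RWr A B where
  toFun b := ⟨⟨1, b⟩, by
    change {c | (1 : B → A) c ≠ 1}.Finite
    simp⟩
  map_one' := rfl
  map_mul' b b' := by
    apply Subtype.ext
    ext1
    · funext c
      exact (mul_one (1 : A)).symm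
    · rfl

end


/-- Q1 has a positive answer for the quotient `G`: every group with a normal subgroup of order two
and quotient isomorphic to `G` is sofic. -/
def CoversSofic (G : Type) [Group G] : Prop :=
  ∀ (Γ : Type) [Group Γ] (N : Subgroup Γ) [N.Normal], Nat.card N = 2 →
    Nonempty (Γ ⧸ N ≃* G) → IsSofic Γ

/-- The map to `G` given by an isomorphism of the quotient. -/
def quoMap {Γ G : Type} [Group Γ] [Group G] {N : Subgroup Γ} [N.Normal] (e : Γ ⧸ N ≃* G) :
    Γ →* G := (e : Γ ⧸ N →* G).comp (QuotientGroup.mk' N)

end Pool.Agent.H96.DC
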