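import Pool.Agent.H96.DC.Lab
import Pool.Agent.H96.DC.WDefs

set_option autoImplicit false

/-!
# Double covers of restricted wreath products: algebra
-/

namespace Pool.Agent.H96.DC

open Pool.Agent.Helper70.Sofic Equiv Finset

section
variable {Γ A B : Type} [Group Γ] [Group A] [Group B] (p : Γ →* RWr A B)

/-- lamp configuration -/
def lf (γ : Γ) : B → A := (p γ : RegularWreathProduct A B).left

/-- position -/
def rt (γ : Γ) : B := (p γ : RegularWreathProduct A B).right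

theorem lf_mul (γ γ' : Γ) (x : B) : lf p (γ * γ') x = lf p γ x * lf p γ' ((rt p γ)⁻¹ * x) := by
  unfold lf rt
  rw [map_mul]
  rfl

theorem rt_mul (γ γ' : Γ) : rt p (γ * γ') = rt p γ * rt p γ' := by
  unfold rt
  rw [map_mul]
  rfl

theorem rt_one : rt p 1 = 1 := by
  unfold rt
  rw [map_one]
  rfl

theorem lf_one (x : B) : lf p 1 x = 1 := by
  unfold lf
  rw [map_one]
  rfl

theorem rt_inv (γ : Γ) : rt p γ⁻¹ = (rt p γ)⁻¹ := by
  unfold rt
  rw [map_inv]
  rfl

theorem lf_inv (γ : Γ) (x : B) : lf p γ⁻¹ x = (lf p γ (rt p γ * x))⁻¹ := by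
  unfold lf rt
  rw [map_inv]
  rfl

theorem p_eq {γ γ' : Γ} (h1 : lf p γ = lf p γ') (h2 : rt p γ = rt p γ') : p γ = p γ' :=
  Subtype.ext (RegularWreathProduct.ext h1 h2)

theorem lf_finite (γ : Γ) : {b | lf p γ b ≠ 1}.Finite := (p γ).2

end

/-- The data of sections. -/
structure Sec {Γ A B : Type} [Group Γ] [Group A] [Group B] [DecidableEq B]
    (p : Γ →* RWr A B) (z : Γ) (sA : A → Γ) (sB : B → Γ) : Prop where
  D : Dbl p z
  hA : ∀ a, p (sA a) = lamp A B a
  hB : ∀ b, p (sB b) = base A B b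
  hA1 : sA 1 = 1
  hB1 : sB 1 = 1

/-- the lamp with value `a` at the position `d` -/
def X {Γ A B : Type} [Group Γ] (sA : A → Γ) (sB : B → Γ) (d : B) (a : A) : Γ :=
  sB d * sA a * (sB d)⁻¹

/-- the commutator pairing -/
noncomputable def bt {Γ A B : Type} [Group Γ] (sA : A → Γ) (sB : B → Γ) (c : B) (a a' : A) :
    ZMod 2 := cm (sA a) (X sA sB c a')

/-- the cochains of the two sections -/
noncomputable def cg {Γ A : Type} [Group Γ] [Group A] (sA : A → Γ) (a a' : A) : ZMod 2 :=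
  dif (sA a * sA a') (sA (a * a'))

namespace Sec

variable {Γ A B : Type} [Group Γ] [Group A] [Group B] [DecidableEq B] {p : Γ →* RWr A B} {z : Γ}
  {sA : A → Γ} {sB : B → Γ} (H : Sec p z sA sB)

include H

theorem lfA (a : A) (x : B) : lf p (sA a) x = if x = 1 then a else 1 := by
  unfold lf
  rw [H.hA]
  rfl

theorem rtA (a : A) : rt p (sA a) = 1 := by
  unfold rt
  rw [H.hA]
  rfl

theorem lfB (b x : B) : lf p (sB b) x = 1 := by
  unfold lf
  rw [H.hB]
  rfl

theorem rtB (b : B) : rt p (sB b) = b := by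
  unfold rt
  rw [H.hB]
  rfl

theorem rtX (d : B) (a : A) : rt p (X sA sB d a) = 1 := by
  rw [X, rt_mul, rt_mul, rt_inv, H.rtA, H.rtB, mul_one, mul_inv_cancel]

theorem lfX (d : B) (a : A) (x : B) : lf p (X sA sB d a) x = if x = d then a else 1 := by
  rw [X, lf_mul, lf_mul, H.lfB, H.lfA, H.rtB, lf_inv, H.lfB, inv_one, one_mul, mul_one]
  by_cases h : x = d
  · rw [if_pos h, h, inv_mul_cancel, if_pos rfl]
  · rw [if_neg h, if_neg]
    intro h1
    exact h (inv_mul_eq_one.1 h1).symm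

theorem X_one (d : B) : X sA sB d 1 = 1 := by
  rw [X, H.hA1, mul_one, mul_inv_cancel]

theorem X_zero (a : A) : X sA sB 1 a = sA a := by
  rw [X, H.hB1, one_mul, inv_one, mul_one]

theorem specA (a a' : A) : sA a * sA a' = zp z (cg sA a a') * sA (a * a') :=
  H.D.dif_spec (by rw [map_mul, H.hA, H.hA, H.hA, map_mul])

theorem specB (b b' : B) : sB b * sB b' = zp z (cg sB b b') * sB (b * b') :=
  H.D.dif_spec (by rw [map_mul, H.hB, H.hB, H.hB, map_mul])

theorem cg_one : cg sA 1 1 = 0 := by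
  rw [cg, H.hA1, mul_one, mul_one, H.hA1, dif, if_pos rfl]

theorem cgB_one : cg sB 1 1 = 0 := by
  rw [cg, H.hB1, mul_one, mul_one, H.hB1, dif, if_pos rfl]

theorem conj_zp (g : Γ) (a : ZMod 2) (x : Γ) : g * (zp z a * x) * g⁻¹ = zp z a * (g * x * g⁻¹) := by
  rw [← mul_assoc g, ← H.D.zp_comm a g]
  simp only [mul_assoc]

theorem X_mul (d : B) (a a' : A) :
    X sA sB d a * X sA sB d a' = zp z (cg sA a a') * X sA sB d (a * a') := by
  rw [X, X, X]
  have h1 : sB d * sA a * (sB d)⁻¹ * (sB d * sA a' * (sB d)⁻¹) =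
      sB d * (sA a * sA a') * (sB d)⁻¹ := by group
  rw [h1, H.specA, H.conj_zp]

theorem conj_central (a : ZMod 2) (g x : Γ) :
    (zp z a * g) * x * (zp z a * g)⁻¹ = g * x * g⁻¹ := by
  have h1 : (zp z a * g) * x * (zp z a * g)⁻¹ = zp z a * (g * x * g⁻¹) * (zp z a)⁻¹ := by group
  rw [h1, H.D.zp_comm, mul_inv_cancel_right]

theorem X_conj (b d : B) (a : A) :
    sB b * X sA sB d a * (sB b)⁻¹ = X sA sB (b * d) a := by
  rw [X, X]
  have h1 : sB b * (sB d * sA a * (sB d)⁻¹) * (sB b)⁻¹ =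
      (sB b * sB d) * sA a * (sB b * sB d)⁻¹ := by group
  rw [h1, H.specB, H.conj_central]

theorem comX {d d' : B} (hne : d ≠ d') (a a' : A) :
    p (X sA sB d a) * p (X sA sB d' a') = p (X sA sB d' a') * p (X sA sB d a) := by
  rw [← map_mul, ← map_mul]
  apply p_eq
  · funext x
    rw [lf_mul, lf_mul, H.rtX, H.rtX, inv_one, one_mul, H.lfX, H.lfX]
    by_cases h1 : x = d
    · have h2 : x ≠ d' := fun h2 => hne (h1.symm.trans h2)
      rw [if_neg h2, mul_one, one_mul]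
    · rw [if_neg h1, mul_one, one_mul]
  · rw [rt_mul, rt_mul, H.rtX, H.rtX]

theorem cm_X {d d' : B} (hne : d ≠ d') (a a' : A) :
    X sA sB d a * X sA sB d' a' =
      zp z (bt sA sB (d⁻¹ * d') a a') * (X sA sB d' a' * X sA sB d a) := by
  have h1 : (1 : B) ≠ d⁻¹ * d' := by
    intro h
    exact hne (inv_mul_eq_one.1 h.symm)
  have h2 := cm_spec H.D (H.comX h1 a a')
  rw [H.X_zero] at h2
  have h4 := H.X_conj d (d⁻¹ * d') a'
  rw [mul_inv_cancel_left] at h4
  have h3 : sB d * (sA a * X sA sB (d⁻¹ * d') a') * (sB d)⁻¹ =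
      X sA sB d a * X sA sB d' a' := by
    rw [← h4]
    generalize X sA sB (d⁻¹ * d') a' = y
    change _ = (sB d * sA a * (sB d)⁻¹) * (sB d * y * (sB d)⁻¹)
    group
  have h5 : sB d * (X sA sB (d⁻¹ * d') a' * sA a) * (sB d)⁻¹ =
      X sA sB d' a' * X sA sB d a := by
    rw [← h4]
    generalize X sA sB (d⁻¹ * d') a' = y
    change _ = (sB d * y * (sB d)⁻¹) * (sB d * sA a * (sB d)⁻¹)
    group
  rw [← h3, h2, H.conj_zp, h5]
  rfl

theorem comA {c : B} (hc : c ≠ 1) (a a' : A) :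
    p (sA a) * p (X sA sB c a') = p (X sA sB c a') * p (sA a) := by
  have := H.comX hc.symm a a'
  rwa [H.X_zero] at this

theorem bt_left {c : B} (hc : c ≠ 1) (a a' a'' : A) :
    bt sA sB c (a * a') a'' = bt sA sB c a a'' + bt sA sB c a' a'' := by
  unfold bt
  rw [← cm_mul_left H.D (H.comA hc a a'') (H.comA hc a' a''), H.specA,
    cm_zp_left H.D _ _ _ (H.comA hc _ _)]

theorem bt_right {c : B} (hc : c ≠ 1) (a a' a'' : A) :
    bt sA sB c a (a' * a'') = bt sA sB c a a' + bt sA sB c a a'' := by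
  unfold bt
  rw [← cm_mul_right H.D (H.comA hc a a') (H.comA hc a a''), H.X_mul,
    cm_zp_right H.D _ _ _ (H.comA hc _ _)]

end Sec

end Pool.Agent.H96.DC
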