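import Pool.Agent.H96.DC.Wr

set_option autoImplicit false

/-!
# Double covers of restricted wreath products: lamps over a sofic approximation
-/

namespace Pool.Agent.H96.DC

open Pool.Agent.Helper70.Sofic Equiv Finset

open scoped Pointwise

/-- crossing sum of a list -/
def cr {V : Type} (b : V → V → ZMod 2) : List V → ZMod 2
  | [] => 0
  | w :: l => (l.map (fun w' => b w' w)).sum + cr b l

section
variable {Γ G : Type} [Group Γ] [Group G] {p : Γ →* G} {z : Γ} {V : Type}

theorem list_zp (D : Dbl p z) (a : V → ZMod 2) (y : V → Γ) (l : List V) :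
    (l.map (fun w => zp z (a w) * y w)).prod = zp z ((l.map a).sum) * (l.map y).prod := by
  induction l with
  | nil => simp [D.zp_zero]
  | cons w l ih =>
    rw [List.map_cons, List.prod_cons, ih, List.map_cons, List.sum_cons, List.map_cons,
      List.prod_cons, D.zp_add]
    calc zp z (a w) * y w * (zp z (l.map a).sum * (l.map y).prod)
        = zp z (a w) * (y w * zp z (l.map a).sum) * (l.map y).prod := by simp only [mul_assoc]
      _ = _ := by
        rw [← D.zp_comm]
        simp only [mul_assoc]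

theorem list_swap (D : Dbl p z) (e : V → Γ) (b : V → ZMod 2) (y : Γ) (l : List V)
    (h : ∀ w ∈ l, e w * y = zp z (b w) * (y * e w)) :
    (l.map e).prod * y = zp z ((l.map b).sum) * (y * (l.map e).prod) := by
  induction l with
  | nil => simp [D.zp_zero]
  | cons w l ih =>
    rw [List.map_cons, List.prod_cons, List.map_cons, List.sum_cons, D.zp_add, mul_assoc,
      ih (fun w hw => h w (List.mem_cons_of_mem _ hw)), ← mul_assoc (e w),
      ← D.zp_comm _ (e w), mul_assoc (zp z _) (e w), ← mul_assoc (e w) y,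
      h w List.mem_cons_self]
    rw [mul_assoc (zp z (b w)), ← mul_assoc (zp z (l.map b).sum), ← D.zp_add,
      add_comm _ (b w), D.zp_add]
    simp only [mul_assoc]

theorem list_mul (D : Dbl p z) (e e' : V → Γ) (b : V → V → ZMod 2) (l : List V)
    (hl : l.Nodup)
    (h : ∀ w ∈ l, ∀ w' ∈ l, w ≠ w' → e w' * e' w = zp z (b w' w) * (e' w * e w')) :
    (l.map e).prod * (l.map e').prod = zp z (cr b l) * (l.map (fun w => e w * e' w)).prod := by
  induction l with
  | nil => simp [cr, D.zp_zero]
  | cons w l ih =>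
    rw [List.nodup_cons] at hl
    have h1 := list_swap D e (fun w' => b w' w) (e' w) l (fun w' hw' => h w List.mem_cons_self w'
      (List.mem_cons_of_mem _ hw') (fun h2 => hl.1 (h2 ▸ hw')))
    have h2 := ih hl.2 (fun w1 hw1 w2 hw2 => h w1 (List.mem_cons_of_mem _ hw1) w2
      (List.mem_cons_of_mem _ hw2))
    rw [List.map_cons, List.prod_cons, List.map_cons, List.prod_cons, List.map_cons,
      List.prod_cons, cr, D.zp_add]
    calc e w * (l.map e).prod * (e' w * (l.map e').prod)
        = e w * ((l.map e).prod * e' w) * (l.map e').prod := by simp only [mul_assoc]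
      _ = e w * (zp z ((l.map (fun w' => b w' w)).sum) * (e' w * (l.map e).prod)) *
          (l.map e').prod := by rw [h1]
      _ = zp z ((l.map (fun w' => b w' w)).sum) * (e w * e' w *
          ((l.map e).prod * (l.map e').prod)) := by
          rw [← mul_assoc (e w), ← D.zp_comm _ (e w)]
          simp only [mul_assoc]
      _ = _ := by
          rw [h2, ← mul_assoc (e w * e' w), ← D.zp_comm _ (e w * e' w)]
          simp only [mul_assoc]

end

section
variable {A B V Γ : Type} [Group A] [Group B] [Group Γ]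

/-- lamp configuration over `V` -/
noncomputable def io (σ : B → Perm V) (K : Finset B) (f : B → A) (v w : V) : A :=
  match lab σ K v w with
  | some d => f d
  | none => 1

/-- the factors of the ordered product -/
noncomputable def Ef (σ : B → Perm V) (K : Finset B) (sA : A → Γ) (sB : B → Γ) (f : B → A)
    (v w : V) : Γ :=
  match lab σ K v w with
  | some d => X sA sB d (f d)
  | none => 1

/-- the ordered product -/
noncomputable def sp [Fintype V] (σ : B → Perm V) (K : Finset B) (sA : A → Γ) (sB : B → Γ)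
    (f : B → A) (v : V) : Γ :=
  ((Finset.univ : Finset V).toList.map (Ef σ K sA sB f v)).prod

open Classical in
/-- the pairing of two points of `V` -/
noncomputable def bV (σ : B → Perm V) (K2 : Finset B) (sA : A → Γ) (sB : B → Γ) (w' w : V)
    (a a' : A) : ZMod 2 :=
  ∑ c ∈ K2, if c ≠ 1 ∧ σ c w = w' then bt sA sB c a a' else 0

/-- the cochain of the lamp group over `V` -/
noncomputable def OV [Fintype V] (σ : B → Perm V) (K2 : Finset B) (sA : A → Γ) (sB : B → Γ)
    (φ φ' : V → A) : ZMod 2 :=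
  ((Finset.univ : Finset V).toList.map (fun w => cg sA (φ w) (φ' w))).sum +
    cr (fun w' w => bV σ K2 sA sB w' w (φ w') (φ' w)) (Finset.univ : Finset V).toList

theorem io_none {σ : B → Perm V} {K : Finset B} {f : B → A} {v w : V}
    (h : lab σ K v w = none) : io σ K f v w = 1 := by
  simp only [io, h]

theorem io_some {σ : B → Perm V} {K : Finset B} {f : B → A} {v w : V} {d : B}
    (h : lab σ K v w = some d) : io σ K f v w = f d := by
  simp only [io, h]

theorem Ef_none {σ : B → Perm V} {K : Finset B} {sA : A → Γ} {sB : B → Γ} {f : B → A} {v w : V}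
    (h : lab σ K v w = none) : Ef σ K sA sB f v w = 1 := by
  simp only [Ef, h]

theorem Ef_some {σ : B → Perm V} {K : Finset B} {sA : A → Γ} {sB : B → Γ} {f : B → A} {v w : V}
    {d : B} (h : lab σ K v w = some d) : Ef σ K sA sB f v w = X sA sB d (f d) := by
  simp only [Ef, h]

theorem io_mul (σ : B → Perm V) (K : Finset B) (f f' : B → A) (v w : V) :
    io σ K (fun x => f x * f' x) v w = io σ K f v w * io σ K f' v w := by
  rcases h : lab σ K v w with _ | d
  · rw [io_none h, io_none h, io_none h, mul_one]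
  · rw [io_some h, io_some h, io_some h]

end

namespace Sec

variable {Γ A B V : Type} [Group Γ] [Group A] [Group B] [DecidableEq B] {p : Γ →* RWr A B}
  {z : Γ} {sA : A → Γ} {sB : B → Γ} (H : Sec p z sA sB) [Fintype V] (σ : B → Perm V)
  {S : Finset B} (hS1 : (1 : B) ∈ S) (hSi : ∀ x ∈ S, x⁻¹ ∈ S)

include H

omit [Fintype V] in
theorem Ef_mul (K : Finset B) (f f' : B → A) (v w : V) :
    Ef σ K sA sB f v w * Ef σ K sA sB f' v w =
      zp z (cg sA (io σ K f v w) (io σ K f' v w)) * Ef σ K sA sB (fun x => f x * f' x) v w := by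
  rcases h : lab σ K v w with _ | d
  · rw [Ef_none h, Ef_none h, Ef_none h, io_none h, io_none h, H.cg_one, H.D.zp_zero]
  · rw [Ef_some h, Ef_some h, Ef_some h, io_some h, io_some h, H.X_mul]

include hS1 hSi in
omit [Fintype V] in
theorem bV_eq {v w w' : V} (hv : Good σ (S ^ 12) (S ^ 2) v) {d d' : B}
    (h : lab σ (S ^ 2) v w = some d) (h' : lab σ (S ^ 2) v w' = some d') (hne : w ≠ w')
    (a a' : A) : bV σ (S ^ 4) sA sB w' w a a' = bt sA sB (d'⁻¹ * d) a a' := by
  classical
  have hd := (lab_some σ h).1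
  have hd' := (lab_some σ h').1
  have h4 : d'⁻¹ * d ∈ S ^ 4 := pow_mul_mem (m := 2) (n := 2) (pow_inv_mem hSi hd') hd
  rw [bV, Finset.sum_eq_single (d'⁻¹ * d)]
  · exact if_pos ((lab_cross σ hS1 hSi hv h h' hne _ h4).2 rfl)
  · intro c hc hne'
    exact if_neg (fun h5 => hne' ((lab_cross σ hS1 hSi hv h h' hne c hc).1 h5))
  · intro h5
    exact absurd h4 h5

include hS1 hSi in
omit [Fintype V] in
theorem Ef_swap {v w w' : V} (hv : Good σ (S ^ 12) (S ^ 2) v) (hne : w ≠ w') (f f' : B → A) :
    Ef σ (S ^ 2) sA sB f v w' * Ef σ (S ^ 2) sA sB f' v w =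
      zp z (bV σ (S ^ 4) sA sB w' w (io σ (S ^ 2) f v w') (io σ (S ^ 2) f' v w)) *
        (Ef σ (S ^ 2) sA sB f' v w * Ef σ (S ^ 2) sA sB f v w') := by
  classical
  have hb1 : ∀ a a' : A, (a = 1 ∨ a' = 1) → bV σ (S ^ 4) sA sB w' w a a' = 0 := by
    intro a a' h
    rw [bV]
    apply Finset.sum_eq_zero
    intro c _
    by_cases hc : c ≠ 1 ∧ σ c w = w'
    · rw [if_pos hc]
      rcases h with rfl | rfl
      · have := H.bt_left hc.1 1 1 a'
        rw [mul_one] at this
        simpa using this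
      · have := H.bt_right hc.1 a 1 1
        rw [mul_one] at this
        simpa using this
    · rw [if_neg hc]
  rcases h' : lab σ (S ^ 2) v w' with _ | d'
  · rw [Ef_none h', io_none h', hb1 _ _ (Or.inl rfl), H.D.zp_zero]
    simp
  · rcases h : lab σ (S ^ 2) v w with _ | d
    · rw [Ef_none h, io_none h, hb1 _ _ (Or.inr rfl), H.D.zp_zero]
      simp
    · rw [Ef_some h, Ef_some h', io_some h, io_some h', H.bV_eq σ hS1 hSi hv h h' hne, ← H.cm_X]
      rintro rfl
      exact hne (lab_winj σ h h')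

include hS1 hSi in
theorem sp_mul {v : V} (hv : Good σ (S ^ 12) (S ^ 2) v) (f f' : B → A) :
    sp σ (S ^ 2) sA sB f v * sp σ (S ^ 2) sA sB f' v =
      zp z (OV σ (S ^ 4) sA sB (io σ (S ^ 2) f v) (io σ (S ^ 2) f' v)) *
        sp σ (S ^ 2) sA sB (fun x => f x * f' x) v := by
  rw [sp, sp, list_mul H.D _ _
    (fun w' w => bV σ (S ^ 4) sA sB w' w (io σ (S ^ 2) f v w') (io σ (S ^ 2) f' v w))
    _ (Finset.nodup_toList _) (fun w _ w' _ hne => H.Ef_swap σ hS1 hSi hv hne f f')]
  have h1 : (fun w => Ef σ (S ^ 2) sA sB f v w * Ef σ (S ^ 2) sA sB f' v w) = fun w =>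
      zp z (cg sA (io σ (S ^ 2) f v w) (io σ (S ^ 2) f' v w)) *
        Ef σ (S ^ 2) sA sB (fun x => f x * f' x) v w := by
    funext w
    exact H.Ef_mul σ _ f f' v w
  rw [h1, list_zp H.D, ← mul_assoc, ← H.D.zp_add, OV, add_comm]
  rfl

include hS1 hSi in
omit [Fintype V] in
theorem io_equiv {v : V} {b : B} (hb : b ∈ S)
    (hv : Good σ (S ^ 12) (S ^ 2) v) (hbv : Good σ (S ^ 12) (S ^ 2) (σ b v)) (f : B → A)
    (hf : ∀ d, f d ≠ 1 → d ∈ S) (w : V) :
    io σ (S ^ 2) (fun x => f (b⁻¹ * x)) (σ b v) w = io σ (S ^ 2) f v w := by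
  rcases lab_equiv σ hS1 hSi (w := w) hb hv hbv f hf with ⟨d, h1, h2⟩ | ⟨h1, h2⟩
  · rw [io_some h1, io_some h2, inv_mul_cancel_left]
  · have e1 : io σ (S ^ 2) f v w = 1 := by
      rcases h : lab σ (S ^ 2) v w with _ | d
      · rw [io_none h]
      · rw [io_some h, h1 d h]
    have e2 : io σ (S ^ 2) (fun x => f (b⁻¹ * x)) (σ b v) w = 1 := by
      rcases h : lab σ (S ^ 2) (σ b v) w with _ | d
      · rw [io_none h]
      · rw [io_some h, h2 d h]
    rw [e1, e2]

include hS1 hSi in
omit [Fintype V] in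
theorem Ef_equiv {v : V} {b : B} (hb : b ∈ S)
    (hv : Good σ (S ^ 12) (S ^ 2) v) (hbv : Good σ (S ^ 12) (S ^ 2) (σ b v)) (f : B → A)
    (hf : ∀ d, f d ≠ 1 → d ∈ S) (w : V) :
    sB b * Ef σ (S ^ 2) sA sB f v w * (sB b)⁻¹ =
      Ef σ (S ^ 2) sA sB (fun x => f (b⁻¹ * x)) (σ b v) w := by
  rcases lab_equiv σ hS1 hSi (w := w) hb hv hbv f hf with ⟨d, h1, h2⟩ | ⟨h1, h2⟩
  · rw [Ef_some h1, Ef_some h2, inv_mul_cancel_left, H.X_conj]
  · have e1 : Ef σ (S ^ 2) sA sB f v w = 1 := by
      rcases h : lab σ (S ^ 2) v w with _ | d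
      · rw [Ef_none h]
      · rw [Ef_some h, h1 d h, H.X_one]
    have e2 : Ef σ (S ^ 2) sA sB (fun x => f (b⁻¹ * x)) (σ b v) w = 1 := by
      rcases h : lab σ (S ^ 2) (σ b v) w with _ | d
      · rw [Ef_none h]
      · rw [Ef_some h, h2 d h, H.X_one]
    rw [e1, e2, mul_one, mul_inv_cancel]

include hS1 hSi in
theorem sp_conj {v : V} {b : B} (hb : b ∈ S)
    (hv : Good σ (S ^ 12) (S ^ 2) v) (hbv : Good σ (S ^ 12) (S ^ 2) (σ b v)) (f : B → A)
    (hf : ∀ d, f d ≠ 1 → d ∈ S) :
    sB b * sp σ (S ^ 2) sA sB f v * (sB b)⁻¹ =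
      sp σ (S ^ 2) sA sB (fun x => f (b⁻¹ * x)) (σ b v) := by
  have h1 : sB b * sp σ (S ^ 2) sA sB f v * (sB b)⁻¹ =
      MulAut.conj (sB b) (sp σ (S ^ 2) sA sB f v) := rfl
  rw [h1, sp, map_list_prod, List.map_map, sp]
  congr 1
  apply List.map_congr_left
  intro w _
  exact H.Ef_equiv σ hS1 hSi hb hv hbv f hf w

theorem rt_Ef (K : Finset B) (f : B → A) (v w : V) : rt p (Ef σ K sA sB f v w) = 1 := by
  rcases h : lab σ K v w with _ | d
  · rw [Ef_none h, rt_one]
  · rw [Ef_some h, H.rtX]

theorem rt_list (K : Finset B) (f : B → A) (v : V) (l : List V) :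
    rt p ((l.map (Ef σ K sA sB f v)).prod) = 1 := by
  induction l with
  | nil => rw [List.map_nil, List.prod_nil, rt_one]
  | cons w l ih => rw [List.map_cons, List.prod_cons, rt_mul, ih, mul_one, H.rt_Ef]

theorem lf_list (K : Finset B) (f : B → A) (v : V) (x : B) (l : List V) (hl : l.Nodup) :
    ((∃ w ∈ l, lab σ K v w = some x) → lf p ((l.map (Ef σ K sA sB f v)).prod) x = f x) ∧
    ((¬ ∃ w ∈ l, lab σ K v w = some x) → lf p ((l.map (Ef σ K sA sB f v)).prod) x = 1) := by
  induction l with
  | nil =>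
    constructor
    · rintro ⟨w, hw, _⟩
      exact absurd hw (by simp)
    · intro _
      rw [List.map_nil, List.prod_nil, lf_one]
  | cons w l ih =>
    rw [List.nodup_cons] at hl
    obtain ⟨ih1, ih2⟩ := ih hl.2
    rw [List.map_cons, List.prod_cons, lf_mul, H.rt_Ef, inv_one, one_mul]
    by_cases hw : lab σ K v w = some x
    · have h1 : ¬ ∃ w' ∈ l, lab σ K v w' = some x := by
        rintro ⟨w', hw', h2⟩
        exact hl.1 (lab_winj σ hw h2 ▸ hw')
      have h2 : lf p (Ef σ K sA sB f v w) x * lf p ((l.map (Ef σ K sA sB f v)).prod) x = f x := by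
        rw [ih2 h1, mul_one, Ef_some hw, H.lfX, if_pos rfl]
      rw [h2]
      exact ⟨fun _ => rfl, fun h3 => absurd ⟨w, List.mem_cons_self, hw⟩ h3⟩
    · have h1 : lf p (Ef σ K sA sB f v w) x = 1 := by
        rcases h : lab σ K v w with _ | d
        · rw [Ef_none h, lf_one]
        · rw [Ef_some h, H.lfX, if_neg]
          rintro rfl
          exact hw h
      rw [h1, one_mul]
      constructor
      · rintro ⟨w', hw', h2⟩
        rcases List.mem_cons.1 hw' with rfl | h3
        · exact absurd h2 hw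
        · exact ih1 ⟨w', h3, h2⟩
      · intro h2
        exact ih2 (fun ⟨w', hw', h3⟩ => h2 ⟨w', List.mem_cons_of_mem _ hw', h3⟩)

include hS1 hSi in
theorem lf_sp {v : V} (hv : Good σ (S ^ 12) (S ^ 2) v) (f : B → A)
    (hf : ∀ d, f d ≠ 1 → d ∈ S ^ 2) : lf p (sp σ (S ^ 2) sA sB f v) = f := by
  funext x
  obtain ⟨h1, h2⟩ := H.lf_list σ (S ^ 2) f v x (Finset.univ : Finset V).toList
    (Finset.nodup_toList _)
  by_cases h3 : ∃ w ∈ (Finset.univ : Finset V).toList, lab σ (S ^ 2) v w = some x
  · exact h1 h3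
  · rw [sp, h2 h3]
    by_contra h4
    have h5 := hf x (fun h6 => h4 h6.symm)
    apply h3
    refine ⟨(σ x)⁻¹ v, by simp, ?_⟩
    apply lab_eq σ hS1 hSi hv h5
    exact (σ x).apply_symm_apply v

theorem rt_sp (v : V) (f : B → A) : rt p (sp σ (S ^ 2) sA sB f v) = 1 := H.rt_list σ _ f v _

theorem sp_one (K : Finset B) (v : V) : sp σ K sA sB (fun _ => 1) v = 1 := by
  rw [sp]
  apply List.prod_eq_one
  intro x hx
  rw [List.mem_map] at hx
  obtain ⟨w, _, rfl⟩ := hx
  rcases h : lab σ K v w with _ | d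
  · rw [Ef_none h]
  · rw [Ef_some h, H.X_one]

/-- The lamp cochain becomes trivial. -/
theorem triv_OV (K2 : Finset B) (hA : Triv A (cg sA)) : Triv (V → A) (OV σ K2 sA sB) := by
  classical
  have h1 : ∀ l : List V, Triv (V → A) (fun φ φ' => (l.map (fun w => cg sA (φ w) (φ' w))).sum) := by
    intro l
    induction l with
    | nil => simpa using triv_zero (V → A)
    | cons w l ih =>
      simp only [List.map_cons, List.sum_cons]
      exact triv_add (triv_comp (Pi.evalMonoidHom (fun _ : V => A) w) hA) ih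
  have h2 : ∀ w' w : V, Triv (V → A) (fun φ φ' => bV σ K2 sA sB w' w (φ w') (φ' w)) := by
    intro w' w
    refine triv_bimul _ ?_ ?_
    · intro φ φ' ψ
      simp only [bV, ← Finset.sum_add_distrib]
      apply Finset.sum_congr rfl
      intro c _
      by_cases hc : c ≠ 1 ∧ σ c w = w'
      · simp only [if_pos hc]
        exact H.bt_left hc.1 _ _ _
      · simp only [if_neg hc, add_zero]
    · intro φ ψ ψ'
      simp only [bV, ← Finset.sum_add_distrib]
      apply Finset.sum_congr rfl
      intro c _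
      by_cases hc : c ≠ 1 ∧ σ c w = w'
      · simp only [if_pos hc]
        exact H.bt_right hc.1 _ _ _
      · simp only [if_neg hc, add_zero]
  have h3 : ∀ l : List V, Triv (V → A)
      (fun φ φ' => cr (fun w' w => bV σ K2 sA sB w' w (φ w') (φ' w)) l) := by
    intro l
    induction l with
    | nil => simpa [cr] using triv_zero (V → A)
    | cons w l ih =>
      simp only [cr]
      refine triv_add ?_ ih
      clear ih
      induction l with
      | nil => simpa using triv_zero (V → A)
      | cons w' l ih =>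
        simp only [List.map_cons, List.sum_cons]
        exact triv_add (h2 w' w) ih
  exact triv_add (h1 _) (h3 _)

theorem OV_one (K2 : Finset B) : OV σ K2 sA sB (1 : V → A) 1 = 0 := by
  classical
  have hb1 : ∀ w' w : V, bV σ K2 sA sB w' w ((1 : V → A) w') ((1 : V → A) w) = 0 := by
    intro w' w
    rw [bV]
    apply Finset.sum_eq_zero
    intro c _
    by_cases hc : c ≠ 1 ∧ σ c w = w'
    · rw [if_pos hc]
      have := H.bt_left hc.1 (1 : A) 1 1
      rw [mul_one] at this
      simpa using this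
    · rw [if_neg hc]
  have h1 : ∀ l : List V,
      cr (fun w' w => bV σ K2 sA sB w' w ((1 : V → A) w') ((1 : V → A) w)) l = 0 := by
    intro l
    induction l with
    | nil => rfl
    | cons w l ih =>
      rw [cr, ih, add_zero]
      apply List.sum_eq_zero
      intro x hx
      rw [List.mem_map] at hx
      obtain ⟨w', _, rfl⟩ := hx
      exact hb1 w' w
  rw [OV, h1, add_zero]
  apply List.sum_eq_zero
  intro x hx
  rw [List.mem_map] at hx
  obtain ⟨w, _, rfl⟩ := hx
  exact H.cg_one

end Sec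

end Pool.Agent.H96.DC
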