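import Mathlib
import Pool.Agent.H96.DC.Cls
import Pool.Agent.H96.DC.GPUniv

set_option autoImplicit false

/-! Extensions of restricted wreath products: the form with a homomorphism to the unrestricted one. -/

namespace Pool.Agent.H96.DC

open Pool.Agent.Helper70.Sofic

section
variable {A B Γ : Type} [Group A] [Group B] [Group Γ] (π : Γ →* RegularWreathProduct A B)
  (hr : ∀ x, x ∈ π.range ↔ {b | x.left b ≠ 1}.Finite)

/-- The quotient by the kernel is the restricted wreath product. -/
noncomputable def quoEquiv : Γ ⧸ π.ker ≃* RWr A B :=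
  (QuotientGroup.quotientKerEquivRange π).trans
    (MulEquiv.subgroupCongr (show π.range = RWr A B from Subgroup.ext hr))

theorem quoEquiv_coe (γ : Γ) : (quoMap (quoEquiv π hr) γ : RegularWreathProduct A B) = π γ := rfl

include hr in
theorem wr_one (hk : Nat.card π.ker = 2) (K L : Subgroup Γ)
    (hK : ∀ γ, γ ∈ K ↔ (π γ).right = 1 ∧ ∀ b, b ≠ 1 → (π γ).left b = 1)
    (hL : ∀ γ, γ ∈ L ↔ (π γ).left = 1) : IsSofic Γ ↔ IsSofic K ∧ IsSofic L := by
  classical
  have h1 : K = (lamp A B).range.comap (quoMap (quoEquiv π hr)) := by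
    ext γ
    rw [hK]
    constructor
    · rintro ⟨h2, h3⟩
      refine ⟨(π γ).left 1, ?_⟩
      apply Subtype.ext
      rw [quoEquiv_coe]
      ext1
      · funext b
        change (if b = 1 then (π γ).left 1 else 1) = (π γ).left b
        by_cases h : b = 1
        · rw [if_pos h, h]
        · rw [if_neg h, h3 b h]
      · exact h2.symm
    · rintro ⟨a, ha⟩
      have h2 : π γ = (lamp A B a : RegularWreathProduct A B) := by
        rw [ha, quoEquiv_coe]
      rw [h2]
      exact ⟨rfl, fun b hb => if_neg hb⟩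
  have h2 : L = (base A B).range.comap (quoMap (quoEquiv π hr)) := by
    ext γ
    rw [hL]
    constructor
    · intro h3
      refine ⟨(π γ).right, ?_⟩
      apply Subtype.ext
      rw [quoEquiv_coe]
      ext1
      · exact h3.symm
      · rfl
    · rintro ⟨b, hb⟩
      have h3 : π γ = (base A B b : RegularWreathProduct A B) := by
        rw [hb, quoEquiv_coe]
      rw [h3]
      rfl
  obtain ⟨z, D⟩ := dbl_of_card hk (quoEquiv π hr)
  rw [h1, h2]
  constructor
  · intro h
    exact ⟨isSofic_of_injective (Subgroup.subtype _) (Subgroup.subtype_injective _) h,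
      isSofic_of_injective (Subgroup.subtype _) (Subgroup.subtype_injective _) h⟩
  · rintro ⟨h3, h4⟩
    exact wr_main D h3 h4

end

theorem wr_two (A B : Type) [Group A] [Group B] :
    (∀ (Γ : Type) [Group Γ] (π : Γ →* RegularWreathProduct A B), Nat.card π.ker = 2 →
      (∀ x, x ∈ π.range ↔ {b | x.left b ≠ 1}.Finite) → IsSofic Γ) ↔
      (∀ (Γ : Type) [Group Γ] (π : Γ →* A), Function.Surjective π → Nat.card π.ker = 2 →
        IsSofic Γ) ∧
      (∀ (Γ : Type) [Group Γ] (π : Γ →* B), Function.Surjective π → Nat.card π.ker = 2 →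
        IsSofic Γ) := by
  classical
  rw [← covers_iff_hom A, ← covers_iff_hom B]
  have h0 : (∀ (Γ : Type) [Group Γ] (π : Γ →* RegularWreathProduct A B), Nat.card π.ker = 2 →
      (∀ x, x ∈ π.range ↔ {b | x.left b ≠ 1}.Finite) → IsSofic Γ) ↔ CoversSofic (RWr A B) := by
    constructor
    · intro h
      rw [covers_iff_hom]
      intro Γ _ π hπ hk
      refine h Γ ((RWr A B).subtype.comp π) ?_ ?_
      · rw [← MonoidHom.comap_ker, Subgroup.ker_subtype, MonoidHom.comap_bot]
        exact hk
      · intro x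
        rw [MonoidHom.range_comp, MonoidHom.range_eq_top.2 hπ, ← MonoidHom.range_eq_map,
          Subgroup.range_subtype]
        rfl
    · intro h Γ _ π hk hr
      exact h Γ π.ker hk ⟨quoEquiv π hr⟩
  rw [h0]
  exact ⟨fun h => ⟨h.wr_lamp, h.wr_base⟩, fun h => h.1.wr h.2⟩

end Pool.Agent.H96.DC
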